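import Pool.Agent.U979.SC.Uni2

set_option autoImplicit false
set_option linter.unusedSectionVars false

open scoped BigOperators Classical
open Pool.Agent.H254R3.IN (conv Om dl IsCl Om_conv Om_dl)
open Pool.Agent.Helper884.IC (B)

noncomputable section

namespace Pool.Agent.U979.SC

variable {n : ℕ} {F : Type} [Field F] [Finite F]

/-- the action of `U × U` on `𝔫` -/
@[reducible] def actN (n : ℕ) (F : Type) [Field F] : MulAction (U n F × U n F) (N n F) where
  smul p y := act p.1 p.2⁻¹ y
  one_smul y := by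
    change act 1 (1 : U n F)⁻¹ y = y
    rw [inv_one, act_one]
  mul_smul p q y := by
    change act (p.1 * q.1) (p.2 * q.2)⁻¹ y = act p.1 p.2⁻¹ (act q.1 q.2⁻¹ y)
    rw [act_act, mul_inv_rev]

/-- the action of `U × U` on `𝔫*` -/
@[reducible] def actD (n : ℕ) (F : Type) [Field F] : MulAction (U n F × U n F) (N n F →ₗ[F] F) where
  smul p m := m ∘ₗ act p.1⁻¹ p.2
  one_smul m := by
    change m ∘ₗ act (1 : U n F)⁻¹ 1 = m
    ext1 y
    rw [inv_one, LinearMap.comp_apply, act_one]
  mul_smul p q m := by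
    change m ∘ₗ act (p.1 * q.1)⁻¹ (p.2 * q.2) = (m ∘ₗ act q.1⁻¹ q.2) ∘ₗ act p.1⁻¹ p.2
    rw [LinearMap.comp_assoc, act_comp, mul_inv_rev]

lemma card_fixed (S : N n F →ₗ[F] N n F) :
    Nat.card (LinearMap.ker S.dualMap) = Nat.card (LinearMap.ker S) := by
  have h1 : Module.finrank F (LinearMap.ker S.dualMap) = Module.finrank F (LinearMap.ker S) := by
    have e1 := S.finrank_range_add_finrank_ker
    have e2 := S.dualMap.finrank_range_add_finrank_ker
    have e3 := S.finrank_range_dualMap_eq_finrank_range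
    have e4 : Module.finrank F (Module.Dual F (N n F)) = Module.finrank F (N n F) :=
      Subspace.dual_finrank_eq
    omega
  rw [Module.natCard_eq_pow_finrank (K := F) (V := LinearMap.ker S.dualMap),
    Module.natCard_eq_pow_finrank (K := F) (V := LinearMap.ker S), h1]

lemma fix_card (p : U n F × U n F) :
    Nat.card (@MulAction.fixedBy _ (N n F →ₗ[F] F) _ (actD n F) p) =
      Nat.card (@MulAction.fixedBy _ (N n F) _ (actN n F) p) := by
  have h1 := card_fixed (act p.1⁻¹ p.2 - LinearMap.id : N n F →ₗ[F] N n F)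
  have e1 : Nat.card (@MulAction.fixedBy _ (N n F →ₗ[F] F) _ (actD n F) p) =
      Nat.card (LinearMap.ker (act p.1⁻¹ p.2 - LinearMap.id : N n F →ₗ[F] N n F).dualMap) := by
    refine Nat.card_congr (Equiv.subtypeEquivRight fun m => ?_)
    change m ∘ₗ act p.1⁻¹ p.2 = m ↔ m ∈ LinearMap.ker _
    rw [LinearMap.mem_ker, LinearMap.dualMap_apply', LinearMap.comp_sub, LinearMap.comp_id, sub_eq_zero]
  have e2 : Nat.card (@MulAction.fixedBy _ (N n F) _ (actN n F) p) =
      Nat.card (LinearMap.ker (act p.1⁻¹ p.2 - LinearMap.id : N n F →ₗ[F] N n F)) := by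
    refine Nat.card_congr (Equiv.subtypeEquivRight fun y => ?_)
    change act p.1 p.2⁻¹ y = y ↔ y ∈ LinearMap.ker _
    rw [LinearMap.mem_ker, LinearMap.sub_apply, LinearMap.id_apply, sub_eq_zero]
    have e3 : act p.1⁻¹ p.2 (act p.1 p.2⁻¹ y) = y := by
      rw [act_act, inv_mul_cancel, inv_mul_cancel, act_one]
    have e4 : act p.1 p.2⁻¹ (act p.1⁻¹ p.2 y) = y := by
      rw [act_act, mul_inv_cancel, mul_inv_cancel, act_one]
    constructor
    · intro h
      rwa [h] at e3
    · intro h
      rwa [h] at e4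
  rw [e1, e2, h1]

lemma orbits_card :
    Nat.card (@MulAction.orbitRel.Quotient (U n F × U n F) (N n F →ₗ[F] F) _ (actD n F)) =
      Nat.card (@MulAction.orbitRel.Quotient (U n F × U n F) (N n F) _ (actN n F)) := by
  have : Fintype (U n F × U n F) := Fintype.ofFinite _
  have h1 := @MulAction.sum_card_fixedBy_eq_card_orbits_mul_card_group (U n F × U n F)
    (N n F →ₗ[F] F) _ (actD n F) _ (fun _ => Fintype.ofFinite _) (Fintype.ofFinite _)
  have h2 := @MulAction.sum_card_fixedBy_eq_card_orbits_mul_card_group (U n F × U n F)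
    (N n F) _ (actN n F) _ (fun _ => Fintype.ofFinite _) (Fintype.ofFinite _)
  simp only [← Nat.card_eq_fintype_card] at h1 h2
  have h3 : ∀ p : U n F × U n F, Nat.card (@MulAction.fixedBy _ (N n F →ₗ[F] F) _ (actD n F) p) =
      Nat.card (@MulAction.fixedBy _ (N n F) _ (actN n F) p) := fix_card
  rw [Finset.sum_congr rfl fun p _ => h3 p, h2] at h1
  have h4 : 0 < Nat.card (U n F × U n F) := Nat.card_pos
  exact (Nat.eq_of_mul_eq_mul_right h4 h1).symm

lemma card_dset : Nat.card (Quotient (dset n F)) =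
    Nat.card (@MulAction.orbitRel.Quotient (U n F × U n F) (N n F →ₗ[F] F) _ (actD n F)) := by
  have h : dset n F = @MulAction.orbitRel (U n F × U n F) (N n F →ₗ[F] F) _ (actD n F) := by
    let _ : MulAction (U n F × U n F) (N n F →ₗ[F] F) := actD n F
    ext l m
    change m ∈ orb l ↔ l ∈ MulAction.orbit (U n F × U n F) m
    constructor
    · rintro ⟨u, v, rfl⟩
      refine ⟨(u, v⁻¹), ?_⟩
      change (l ∘ₗ act u v) ∘ₗ act u⁻¹ v⁻¹ = l
      rw [LinearMap.comp_assoc, act_comp, mul_inv_cancel, inv_mul_cancel]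
      ext1 y
      rw [LinearMap.comp_apply, act_one]
    · rintro ⟨⟨u, v⟩, h⟩
      have h' : m ∘ₗ act u⁻¹ v = l := h
      rw [← h']
      exact orb_symm (orb_act (orb_self m) _ _)
  rw [h]

omit [Finite F] in
lemma superclass_mem {x y : U n F} : y ∈ superclass x ↔ superclass x = superclass y := by
  constructor
  · rintro ⟨u, v, h⟩
    ext g
    constructor
    · rintro ⟨a, b, hg⟩
      refine ⟨a * u⁻¹, v⁻¹ * b, ?_⟩
      rw [h, act_act, hg, inv_mul_cancel_right, mul_inv_cancel_left]
    · rintro ⟨a, b, hg⟩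
      refine ⟨a * u, v * b, ?_⟩
      rw [hg, h, act_act]
  · intro h
    rw [h]
    exact ⟨1, 1, by rw [act_one]⟩

lemma card_andreK : Nat.card (andreK n F) =
    Nat.card (@MulAction.orbitRel.Quotient (U n F × U n F) (N n F) _ (actN n F)) := by
  let f : N n F → Set (U n F) := fun y => superclass (uu y)
  have h1 : andreK n F = Set.range f := by
    ext C
    constructor
    · rintro ⟨x, rfl⟩
      refine ⟨dd x, ?_⟩
      change superclass (uu (dd x)) = superclass x
      congr 1
      apply dd_inj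
      rw [dd_uu]
    · rintro ⟨y, rfl⟩
      exact ⟨uu y, rfl⟩
  have h2 : @MulAction.orbitRel (U n F × U n F) (N n F) _ (actN n F) = Setoid.ker f := by
    let _ : MulAction (U n F × U n F) (N n F) := actN n F
    ext x y
    rw [Setoid.ker_def]
    change x ∈ MulAction.orbit (U n F × U n F) y ↔ superclass (uu x) = superclass (uu y)
    rw [eq_comm, ← superclass_mem]
    constructor
    · rintro ⟨⟨u, v⟩, h⟩
      refine ⟨u, v⁻¹, ?_⟩
      rw [dd_uu, dd_uu]
      exact h.symm
    · rintro ⟨u, v, h⟩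
      rw [dd_uu, dd_uu] at h
      refine ⟨(u, v⁻¹), ?_⟩
      change act u v⁻¹⁻¹ y = x
      rw [inv_inv, h]
  unfold MulAction.orbitRel.Quotient
  rw [h1, h2]
  exact (Nat.card_congr (Setoid.quotientKerEquivRange f)).symm

theorem card_K_eq : Nat.card (Quotient (dset n F)) = Nat.card (andreK n F) := by
  rw [card_dset, orbits_card, card_andreK]

end Pool.Agent.U979.SC
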