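import Mathlib

/-!
# Supercharacter theories and André's supercharacter theory of the unitriangular groups: definitions
-/

set_option autoImplicit false

open scoped BigOperators

noncomputable section

namespace Pool.Agent.U979.SC

/-- `chi` is an irreducible complex character of `G`. -/
def IsIrrChar {G : Type} [Group G] (chi : G → ℂ) : Prop :=
  ∃ (V : Type) (_ : AddCommGroup V) (_ : Module ℂ V) (_ : FiniteDimensional ℂ V)
    (rho : Representation ℂ G V), rho.IsIrreducible ∧ chi = rho.character

/-- The character `σ_A = ∑_{ψ ∈ A} ψ(1) ψ`. -/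
def sigma {G : Type} [Group G] (A : Set (G → ℂ)) (g : G) : ℂ := ∑ᶠ psi ∈ A, psi 1 * psi g

/-- `(X, K)` is a supercharacter theory of `G` (Diaconis–Isaacs): `X` is a partition of the set of the
irreducible characters of `G`, `K` is a partition of `G`, `|X| = |K|`, `{1} ∈ K`, and for every `A ∈ X`
the character `σ_A` is constant on every block of `K`. -/
structure IsSCT {G : Type} [Group G] (X : Set (Set (G → ℂ))) (K : Set (Set G)) : Prop where
  irr : ∀ A ∈ X, A.Nonempty ∧ ∀ chi ∈ A, IsIrrChar chi
  cover : ∀ chi : G → ℂ, IsIrrChar chi → ∃! A : Set (G → ℂ), A ∈ X ∧ chi ∈ A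
  part : Setoid.IsPartition K
  card : Nat.card X = Nat.card K
  one : {1} ∈ K
  const : ∀ A ∈ X, ∀ C ∈ K, ∀ g ∈ C, ∀ h ∈ C, sigma A g = sigma A h

variable (n : ℕ) (F : Type) [Field F]

/-- The space `𝔫` of strictly upper triangular `n × n` matrices. -/
def N : Submodule F (Matrix (Fin n) (Fin n) F) where
  carrier := {x | ∀ i j, j ≤ i → x i j = 0}
  add_mem' := by
    intro a b ha hb i j h
    simp [ha i j h, hb i j h]
  zero_mem' := by
    intro i j _
    rfl
  smul_mem' := by
    intro c x hx i j h
    simp [hx i j h]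

/-- The group `U = U_n(F)` of upper unitriangular `n × n` matrices. -/
def U : Subgroup (Matrix (Fin n) (Fin n) F)ˣ where
  carrier := {g | (∀ i, g.val i i = 1) ∧ ∀ i j, j < i → g.val i j = 0}
  one_mem' := by
    refine ⟨fun i => by simp, fun i j h => ?_⟩
    simp [Matrix.one_apply_ne h.ne']
  mul_mem' := by
    rintro a b ⟨ha1, ha2⟩ ⟨hb1, hb2⟩
    refine ⟨fun i => ?_, fun i j h => ?_⟩
    · rw [Units.val_mul, Matrix.mul_apply, Finset.sum_eq_single i]
      · rw [ha1, hb1, one_mul]
      · intro k _ hk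
        rcases lt_or_gt_of_ne hk with h | h
        · rw [ha2 i k h, zero_mul]
        · rw [hb2 k i h, mul_zero]
      · intro h
        exact absurd (Finset.mem_univ i) h
    · rw [Units.val_mul, Matrix.mul_apply]
      refine Finset.sum_eq_zero fun k _ => ?_
      rcases lt_or_ge k i with h1 | h1
      · rw [ha2 i k h1, zero_mul]
      · rw [hb2 k j (lt_of_lt_of_le h h1), mul_zero]
  inv_mem' := by
    rintro a ⟨ha1, ha2⟩
    have hT : Matrix.BlockTriangular a.val (id : Fin n → Fin n) := fun i j h => ha2 i j h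
    have hT' : Matrix.BlockTriangular (a⁻¹).val (id : Fin n → Fin n) := by
      have : Invertible a.val := a.isUnit.invertible
      have h1 := Matrix.blockTriangular_inv_of_blockTriangular (M := a.val) hT
      rwa [← Matrix.coe_units_inv] at h1
    refine ⟨fun i => ?_, fun i j h => hT' h⟩
    have h1 : (a.val * (a⁻¹).val) i i = 1 := by
      rw [← Units.val_mul, mul_inv_cancel, Units.val_one, Matrix.one_apply_eq]
    rw [Matrix.mul_apply, Finset.sum_eq_single i] at h1
    · rwa [ha1, one_mul] at h1
    · intro k _ hk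
      rcases lt_or_gt_of_ne hk with h | h
      · rw [ha2 i k h, zero_mul]
      · rw [hT' h, mul_zero]
    · intro h
      exact absurd (Finset.mem_univ i) h

variable {n F}

/-- `g - 1 ∈ 𝔫` for `g ∈ U`. -/
def dd (g : U n F) : N n F := ⟨g.val.val - 1, by
  intro i j h
  rcases h.eq_or_lt with rfl | h1
  · rw [Matrix.sub_apply, g.2.1, Matrix.one_apply_eq, sub_self]
  · rw [Matrix.sub_apply, g.2.2 i j h1, Matrix.one_apply_ne h1.ne', sub_self]⟩

/-- The map `y ↦ u y v` of `𝔫`, for `u, v ∈ U`. -/
def act (u v : U n F) : N n F →ₗ[F] N n F where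
  toFun y := ⟨u.val.val * y.val * v.val.val, by
    intro i j h
    rw [Matrix.mul_apply]
    refine Finset.sum_eq_zero fun l _ => ?_
    rcases lt_or_ge j l with h1 | h1
    · rw [v.2.2 l j h1, mul_zero]
    · rw [Matrix.mul_apply, Finset.sum_eq_zero, zero_mul]
      intro k _
      rcases lt_or_ge k i with h2 | h2
      · rw [u.2.2 i k h2, zero_mul]
      · rw [y.2 k l (h1.trans (h.trans h2)), mul_zero]⟩
  map_add' x y := by
    apply Subtype.ext
    simp [mul_add, add_mul]
  map_smul' c x := by
    apply Subtype.ext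
    simp

/-- The two-sided orbit `U l U` of `l ∈ 𝔫*`, where `(u l v)(y) = l (u y v)`. -/
def orb (l : N n F →ₗ[F] F) : Set (N n F →ₗ[F] F) := {m | ∃ u v : U n F, m = l ∘ₗ act u v}

/-- The function `g ↦ ∑_{m ∈ U l U} θ (m (g - 1))` on `U`. -/
def orbSum (th : AddChar F ℂ) (l : N n F →ₗ[F] F) (g : U n F) : ℂ :=
  ∑ᶠ m ∈ orb l, th (m (dd g))

/-- André's superclass `{g | g - 1 ∈ U (x - 1) U}` of `x`. -/
def superclass (x : U n F) : Set (U n F) := {g | ∃ u v : U n F, dd g = act u v (dd x)}

variable (n F)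

/-- The partition of `U` into André's superclasses. -/
def andreK : Set (Set (U n F)) := {C | ∃ x : U n F, C = superclass x}

/-- The partition of the irreducible characters of `U` in André's theory: the block of `l ∈ 𝔫*` consists
of the irreducible constituents of `g ↦ ∑_{m ∈ U l U} θ (m (g - 1))`. -/
def andreX (th : AddChar F ℂ) : Set (Set (U n F → ℂ)) :=
  {A | ∃ l : N n F →ₗ[F] F, A = {psi | IsIrrChar psi ∧ ∑ᶠ g : U n F, orbSum th l g * psi g⁻¹ ≠ 0}}

variable {n F}

/-- The functional `y ↦ a y_{ij}`. -/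
def lam (i j : Fin n) (a : F) : N n F →ₗ[F] F where
  toFun y := a * y.val i j
  map_add' x y := by simp [mul_add]
  map_smul' c x := by
    simp only [Submodule.coe_smul, Matrix.smul_apply, smul_eq_mul, RingHom.id_apply]
    ring

/-- The single-box supercharacter at the position `(i, j)` with label `a`:
`g ↦ q^{-(j-i-1)} ∑_{m ∈ U l U} θ (m (g - 1))`, `l : y ↦ a y_{ij}`, `q = |F|`. -/
def single (th : AddChar F ℂ) (i j : Fin n) (a : F) (g : U n F) : ℂ :=
  ((Nat.card F : ℂ) ^ ((j : ℕ) - i - 1))⁻¹ * orbSum th (lam i j a) g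

end Pool.Agent.U979.SC
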