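import Pool.Agent.U979.SC.Defs
import Pool.Agent.H254R3.IN.Idem

set_option autoImplicit false
set_option linter.unusedSectionVars false

open scoped BigOperators Classical
open Pool.Agent.Helper884.IC (B IsClass Irr mem_Irr expand B_irr)
open Pool.Agent.H254R3.IN (conv Om dl IsCl Om_conv Om_dl)

noncomputable section

namespace Pool.Agent.U979.SC

variable {G : Type} [Group G] [Fintype G]

/-- the function `g ↦ f g⁻¹` -/
def vee (f : G → ℂ) (g : G) : ℂ := f g⁻¹

lemma vee_cl {f : G → ℂ} (hf : IsCl f) : IsCl (vee f) := by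
  intro g y
  unfold vee
  have e : (y * g * y⁻¹)⁻¹ = y * g⁻¹ * y⁻¹ := by group
  rw [e, hf]

lemma conv_vee (f h : G → ℂ) : conv (vee f) (vee h) = vee (conv h f) := by
  funext g
  unfold conv vee
  refine Fintype.sum_equiv (Equiv.mulLeft g⁻¹) _ _ fun x => ?_
  simp only [Equiv.coe_mulLeft]
  rw [mul_comm]
  congr 2
  · group
  · group

lemma cG : (Nat.card G : ℂ) ≠ 0 := by exact_mod_cast Nat.card_pos.ne'

variable {ι : Type} [Fintype ι] (f : ι → G → ℂ) (hcl : ∀ i, IsCl (f i))
  (horth : ∀ i j, i ≠ j → conv (f i) (f j) = 0)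
  (hsum : ∀ g, ∑ i, f i g = if g = 1 then (Nat.card G : ℂ) else 0)

include hcl horth hsum

lemma om_sum {χ : G → ℂ} (hχ : IsIrrChar χ) : ∑ i, Om (vee (f i)) χ = Nat.card G := by
  unfold Om vee
  rw [← Finset.sum_div, Finset.sum_comm]
  have h1 : ∀ g : G, ∑ i, f i g⁻¹ * χ g = (if g = 1 then (Nat.card G : ℂ) else 0) * χ g := by
    intro g
    rw [← Finset.sum_mul, hsum]
    simp
  simp only [h1, ite_mul, zero_mul, Finset.sum_ite_eq', Finset.mem_univ, if_true]
  exact mul_div_cancel_right₀ _ (Pool.Agent.H254R3.IN.IsIrr.one_ne hχ)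

lemma om_mul {χ : G → ℂ} (hχ : IsIrrChar χ) {i j : ι} (hij : i ≠ j) :
    Om (vee (f i)) χ * Om (vee (f j)) χ = 0 := by
  rw [← Om_conv hχ (vee_cl (hcl i)) (vee_cl (hcl j)), conv_vee, horth j i hij.symm]
  simp [Om, vee]

lemma om_unique {χ : G → ℂ} (hχ : IsIrrChar χ) : ∃! i, Om (vee (f i)) χ ≠ 0 := by
  have h1 := om_sum f hcl horth hsum hχ
  have h2 : ∃ i, Om (vee (f i)) χ ≠ 0 := by
    by_contra h
    push Not at h
    rw [Finset.sum_eq_zero fun i _ => h i] at h1
    exact cG h1.symm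
  obtain ⟨i, hi⟩ := h2
  refine ⟨i, hi, fun j hj => ?_⟩
  by_contra hne
  have h3 := om_mul f hcl horth hsum hχ hne
  exact mul_ne_zero hj hi h3

lemma om_val {χ : G → ℂ} (hχ : IsIrrChar χ) {i : ι} (hi : Om (vee (f i)) χ ≠ 0) :
    Om (vee (f i)) χ = Nat.card G := by
  have h1 := om_sum f hcl horth hsum hχ
  rw [Finset.sum_eq_single i] at h1
  · exact h1
  · intro j _ hj
    have := om_mul f hcl horth hsum hχ hj
    exact (mul_eq_zero.mp this).resolve_right hi
  · intro h
    exact absurd (Finset.mem_univ i) h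

omit hcl horth hsum in
lemma B_om {χ : G → ℂ} (hχ : IsIrrChar χ) (h : G → ℂ) :
    B h χ = χ 1 * Om (vee h) χ / Nat.card G := by
  have h1 : χ 1 ≠ 0 := Pool.Agent.H254R3.IN.IsIrr.one_ne hχ
  have h2 : ∑ g : G, h g * χ g⁻¹ = ∑ g : G, vee h g * χ g := by
    refine Fintype.sum_equiv (Equiv.inv G) _ _ fun g => ?_
    simp [vee]
  unfold B Om
  rw [h2]
  field_simp

lemma B_val {χ : G → ℂ} (hχ : IsIrrChar χ) {i : ι} (hi : B (f i) χ ≠ 0) : B (f i) χ = χ 1 := by
  rw [B_om hχ] at hi ⊢
  have h1 : Om (vee (f i)) χ ≠ 0 := by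
    intro h
    apply hi
    rw [h, mul_zero, zero_div]
  rw [om_val f hcl horth hsum hχ h1]
  exact mul_div_cancel_right₀ _ cG

lemma B_unique {χ : G → ℂ} (hχ : IsIrrChar χ) : ∃! i, B (f i) χ ≠ 0 := by
  have h1 : ∀ i, B (f i) χ ≠ 0 ↔ Om (vee (f i)) χ ≠ 0 := by
    intro i
    rw [B_om hχ]
    have h1 : χ 1 ≠ 0 := Pool.Agent.H254R3.IN.IsIrr.one_ne hχ
    have h2 : (Nat.card G : ℂ) ≠ 0 := cG
    constructor
    · intro h h3
      apply h
      rw [h3, mul_zero, zero_div]
    · intro h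
      exact div_ne_zero (mul_ne_zero h1 h) h2
  simp only [h1]
  exact om_unique f hcl horth hsum hχ

/-- the function `f i` is the character `σ_A` of the set `A` of its irreducible constituents -/
lemma sigma_eq (i : ι) : sigma {χ | IsIrrChar χ ∧ B (f i) χ ≠ 0} = f i := by
  funext g
  have h1 := congrFun (expand (f i) (hcl i)) g
  rw [h1, Finset.sum_apply]
  unfold sigma
  have hS : {χ : G → ℂ | IsIrrChar χ ∧ B (f i) χ ≠ 0} =
      ((Irr G).filter fun χ => B (f i) χ ≠ 0 : Finset (G → ℂ)) := by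
    ext χ
    simp only [Set.mem_ofPred_eq, Finset.coe_filter, mem_Irr]
    exact Iff.rfl
  rw [hS, finsum_mem_coe_finset, Finset.sum_filter]
  refine Finset.sum_congr rfl fun χ hχ => ?_
  simp only [Pi.smul_apply, smul_eq_mul]
  by_cases h2 : B (f i) χ ≠ 0
  · rw [if_pos h2, B_val f hcl horth hsum (mem_Irr.mp hχ) h2]
  · rw [if_neg h2]
    rw [not_not] at h2
    rw [h2, zero_mul]

/-- `ψ * f i = |G| ψ` for an irreducible constituent `ψ` of `f i` -/
lemma conv_irr {ψ : G → ℂ} (hψ : IsIrrChar ψ) {i : ι} (hi : B (f i) ψ ≠ 0) (g : G) :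
    conv ψ (f i) g = Nat.card G * ψ g := by
  have hψc : IsCl ψ := fun g y => Pool.Agent.H254R3.IN.IsIrr.conj hψ g y
  have h0 : ∀ j, j ≠ i → conv ψ (f j) = 0 := by
    intro j hj
    have h1 : vee (conv ψ (f j)) = 0 := by
      apply Pool.Agent.H254R3.IN.eq_of_Om
      · exact vee_cl (hψc.conv (hcl j))
      · intro g y
        rfl
      · intro χ hχ
        rw [← conv_vee, Om_conv hχ (vee_cl (hcl j)) (vee_cl hψc)]
        have h2 : Om (0 : G → ℂ) χ = 0 := by simp [Om]
        rw [h2]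
        have hχ1 : χ 1 ≠ 0 := Pool.Agent.H254R3.IN.IsIrr.one_ne hχ
        by_cases hne : ψ = χ
        · subst hne
          have h3 := B_unique f hcl horth hsum hψ
          have h4 : B (f j) ψ = 0 := by
            by_contra h
            exact hj (h3.unique h hi)
          rw [B_om hψ] at h4
          have h5 : Om (vee (f j)) ψ = 0 := by
            rcases div_eq_zero_iff.mp h4 with h | h
            · exact (mul_eq_zero.mp h).resolve_left hχ1
            · exact absurd h cG
          rw [h5, zero_mul]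
        · have h3 : B ψ χ = 0 := by
            rw [B_irr hψ hχ, if_neg hne]
          rw [B_om hχ] at h3
          have h5 : Om (vee ψ) χ = 0 := by
            rcases div_eq_zero_iff.mp h3 with h | h
            · exact (mul_eq_zero.mp h).resolve_left hχ1
            · exact absurd h cG
          rw [h5, mul_zero]
    funext x
    have h2 := congrFun h1 x⁻¹
    simpa [vee] using h2
  have h1 : ∑ j, conv ψ (f j) g = Nat.card G * ψ g := by
    unfold conv
    rw [Finset.sum_comm]
    simp only [← Finset.mul_sum, hsum]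
    rw [Finset.sum_eq_single g]
    · rw [inv_mul_cancel, if_pos rfl, mul_comm]
    · intro x _ hx
      rw [if_neg, mul_zero]
      intro h
      exact hx (inv_mul_eq_one.mp h)
    · intro h
      exact absurd (Finset.mem_univ g) h
  rw [← h1, Finset.sum_eq_single i]
  · intro j _ hj
    rw [h0 j hj]
    rfl
  · intro h
    exact absurd (Finset.mem_univ i) h

lemma nonempty_of_ne (i : ι) (hi : f i ≠ 0) : {χ | IsIrrChar χ ∧ B (f i) χ ≠ 0}.Nonempty := by
  by_contra h
  rw [Set.not_nonempty_iff_eq_empty] at h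
  apply hi
  rw [← sigma_eq f hcl horth hsum i, h]
  funext g
  simp [sigma]

end Pool.Agent.U979.SC
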