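import Pool.Agent.U979.SC.Sing

set_option autoImplicit false
set_option linter.unusedSectionVars false

open scoped BigOperators Classical
open Pool.Agent.H254R3.IN (conv Om dl IsCl Om_conv Om_dl)
open Pool.Agent.Helper884.IC (B B_irr B_smul_left)

noncomputable section

namespace Pool.Agent.U979.SC

variable {n : ℕ} {F : Type} [Field F] [Finite F] [Fintype (U n F)]

lemma fam_sum' {th : AddChar F ℂ} (hth : ∃ x, th x ≠ 1) (g : U n F) :
    ∑ q, fam th q g = @ite ℂ (g = 1) (Classical.propDecidable (g = 1)) (Nat.card (U n F) : ℂ) 0 := by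
  rw [fam_sum hth g]
  split_ifs <;> rfl

/-- the block of `l` -/
def block (th : AddChar F ℂ) (l : N n F →ₗ[F] F) : Set (U n F → ℂ) :=
  {psi | IsIrrChar psi ∧ ∑ᶠ g : U n F, orbSum th l g * psi g⁻¹ ≠ 0}

lemma block_eq (th : AddChar F ℂ) (l : N n F →ₗ[F] F) :
    block th l = {χ | IsIrrChar χ ∧ B (fam th (⟦l⟧ : Quotient (dset n F))) χ ≠ 0} := by
  unfold block
  ext χ
  simp only [Set.mem_ofPred_eq]
  rw [fam_eq, finsum_eq_sum_of_fintype]
  unfold B
  have : (Nat.card (U n F) : ℂ)⁻¹ ≠ 0 := inv_ne_zero cG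
  constructor
  · rintro ⟨h1, h2⟩
    exact ⟨h1, mul_ne_zero this h2⟩
  · rintro ⟨h1, h2⟩
    exact ⟨h1, right_ne_zero_of_mul h2⟩

lemma orbSum_one (th : AddChar F ℂ) (l : N n F →ₗ[F] F) :
    orbSum th l 1 = (Nat.card (orb l) : ℂ) := by
  rw [orbSum_eq, Finset.sum_apply]
  simp only [ee, dd_one, map_zero, AddChar.map_zero_eq_one]
  rw [Finset.sum_const, nsmul_eq_mul, mul_one, Nat.card_eq_fintype_card, Set.toFinset_card]

lemma orbSum_ne (th : AddChar F ℂ) (l : N n F →ₗ[F] F) : orbSum th l ≠ 0 := by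
  intro h
  have h1 := orbSum_one th l
  rw [h] at h1
  have h2 : 0 < Nat.card (orb l) := by
    have : Nonempty (orb l) := ⟨⟨l, orb_self l⟩⟩
    exact Nat.card_pos
  have h3 : (Nat.card (orb l) : ℂ) = 0 := h1.symm
  exact h2.ne' (by exact_mod_cast h3)

/-- averaging -/
def Avg (f : U n F → ℂ) (g : U n F) : ℂ := ∑ w : U n F, f (w * g * w⁻¹)

lemma Avg_cl {f : U n F → ℂ} (hf : IsCl f) : Avg f = (Nat.card (U n F) : ℂ) • f := by
  funext g
  unfold Avg
  simp only [hf g, Finset.sum_const, Finset.card_univ, nsmul_eq_mul, Pi.smul_apply, smul_eq_mul,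
    Nat.card_eq_fintype_card]

lemma Avg_ee (th : AddChar F ℂ) (l : N n F →ₗ[F] F) (t : U n F) :
    Avg (ee th (l ∘ₗ act t t⁻¹)) = Avg (ee th l) := by
  funext g
  unfold Avg
  refine Fintype.sum_equiv (Equiv.mulLeft t) _ _ fun w => ?_
  simp only [Equiv.coe_mulLeft, ee, LinearMap.comp_apply]
  rw [dd_conj, dd_conj, act_act, mul_inv_rev]

variable {th : AddChar F ℂ} {l : N n F →ₗ[F] F}
  (htr : ∀ m ∈ orb l, ∃ w : U n F, m = l ∘ₗ act w w⁻¹)

include htr

lemma Avg_W {h : U n F → ℂ} (hh : h ∈ W th l) : ∃ c : ℂ, Avg h = c • Avg (ee th l) := by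
  refine Submodule.span_induction (p := fun x _ => ∃ c : ℂ, Avg x = c • Avg (ee th l)) ?_ ?_ ?_ ?_ hh
  · rintro _ ⟨m, hm, rfl⟩
    obtain ⟨w, rfl⟩ := htr m hm
    exact ⟨1, by rw [Avg_ee, one_smul]⟩
  · refine ⟨0, ?_⟩
    funext g
    simp [Avg]
  · rintro x y _ _ ⟨c, hc⟩ ⟨d, hd⟩
    refine ⟨c + d, ?_⟩
    rw [add_smul, ← hc, ← hd]
    funext g
    simp [Avg, Finset.sum_add_distrib]
  · rintro a x _ ⟨c, hc⟩
    refine ⟨a * c, ?_⟩
    rw [mul_smul, ← hc]
    funext g
    simp [Avg, Finset.mul_sum]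

lemma mult_of_cl {h : U n F → ℂ} (hh : h ∈ W th l) (hcl : IsCl h) : ∃ c : ℂ, h = c • orbSum th l := by
  obtain ⟨c, hc⟩ := Avg_W htr hh
  obtain ⟨d, hd⟩ := Avg_W htr (orbSum_mem th l)
  rw [Avg_cl hcl] at hc
  rw [Avg_cl (orbSum_cl th l)] at hd
  have hG : (Nat.card (U n F) : ℂ) ≠ 0 := cG
  have hd0 : d ≠ 0 := by
    rintro rfl
    rw [zero_smul] at hd
    rcases smul_eq_zero.mp hd with h1 | h1
    · exact hG h1
    · exact orbSum_ne th l h1
  refine ⟨c / d, ?_⟩
  have h1 : Avg (ee th l) = (d⁻¹ * (Nat.card (U n F) : ℂ)) • orbSum th l := by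
    rw [mul_smul, hd, smul_smul, inv_mul_cancel₀ hd0, one_smul]
  have h2 : h = ((Nat.card (U n F) : ℂ)⁻¹ * c) • Avg (ee th l) := by
    rw [mul_smul, ← hc, smul_smul, inv_mul_cancel₀ hG, one_smul]
  rw [h2, h1, smul_smul]
  congr 1
  field_simp

variable (hth : ∃ x, th x ≠ 1)

include hth

omit htr in
lemma mem_W_of_block {ψ : U n F → ℂ} (h : ψ ∈ block th l) : ψ ∈ W th l := by
  rw [block_eq] at h
  obtain ⟨h1, h2⟩ := h
  have h3 : conv ψ (orbSum th l) = (Nat.card (U n F) : ℂ) • ψ := by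
    funext g
    have := conv_irr (fam th) fam_cl (fam_orth hth) (fam_sum' hth) h1 h2 g
    rw [fam_eq] at this
    exact this
  have h4 := conv_mem_right th ψ (orbSum_mem th l)
  rw [h3] at h4
  have h5 := Submodule.smul_mem _ (Nat.card (U n F) : ℂ)⁻¹ h4
  rwa [smul_smul, inv_mul_cancel₀ cG, one_smul] at h5

omit htr in
lemma block_nonempty : (block th l).Nonempty := by
  rw [block_eq]
  apply nonempty_of_ne (fam th) fam_cl (fam_orth hth) (fam_sum' hth)
  rw [fam_eq]
  exact orbSum_ne th l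

omit htr in
lemma sigma_block : sigma (block th l) = orbSum th l := by
  rw [block_eq, sigma_eq (fam th) fam_cl (fam_orth hth) (fam_sum' hth), fam_eq]

lemma block_single : ∃ ψ : U n F → ℂ, block th l = {ψ} ∧ IsIrrChar ψ ∧
    ∀ g, orbSum th l g = ψ 1 * ψ g := by
  obtain ⟨ψ, hψ⟩ := block_nonempty (l := l) hth
  have h1 : block th l = {ψ} := by
    ext φ
    rw [Set.mem_singleton_iff]
    constructor
    · intro hφ
      have hcl1 : IsCl φ := fun g y => Pool.Agent.H254R3.IN.IsIrr.conj hφ.1 g y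
      have hcl2 : IsCl ψ := fun g y => Pool.Agent.H254R3.IN.IsIrr.conj hψ.1 g y
      obtain ⟨c, hc⟩ := mult_of_cl htr (mem_W_of_block hth hφ) hcl1
      obtain ⟨d, hd⟩ := mult_of_cl htr (mem_W_of_block hth hψ) hcl2
      have hd0 : d ≠ 0 := by
        rintro rfl
        rw [zero_smul] at hd
        have := Pool.Agent.H254R3.IN.IsIrr.one_ne hψ.1
        rw [hd] at this
        exact this rfl
      have hc0 : c ≠ 0 := by
        rintro rfl
        rw [zero_smul] at hc
        have := Pool.Agent.H254R3.IN.IsIrr.one_ne hφ.1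
        rw [hc] at this
        exact this rfl
      have h2 : φ = (c / d) • ψ := by
        rw [hd, smul_smul, div_mul_cancel₀ _ hd0, ← hc]
      by_contra hne
      have h3 := B_irr hφ.1 hψ.1
      rw [if_neg hne, h2, B_smul_left, B_irr hψ.1 hψ.1, if_pos rfl, mul_one] at h3
      exact div_ne_zero hc0 hd0 h3
    · rintro rfl
      exact hψ
  refine ⟨ψ, h1, hψ.1, fun g => ?_⟩
  rw [← sigma_block hth, h1]
  unfold sigma
  rw [finsum_mem_singleton]

end Pool.Agent.U979.SC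

namespace Pool.Agent.U979.SC

variable {n : ℕ} {F : Type} [Field F] [Finite F] [Fintype (U n F)]
variable {th : AddChar F ℂ} (hth : ∃ x, th x ≠ 1)

lemma card_orb_lam (i j : Fin n) (hij : i < j) {a : F} (ha : a ≠ 0) :
    Nat.card (orb (lam i j a)) = (Nat.card F ^ ((j : ℕ) - i - 1)) ^ 2 := by
  rw [orb_lam i j hij a, ← Nat.card_congr (Equiv.ofInjective _ (Phi_inj i j ha)), Nat.card_prod,
    Nat.card_fun, Nat.card_eq_fintype_card (α := Finset.Ioo i j), Fintype.card_coe, Fin.card_Ioo, sq]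

include hth

/-- the single-box functions are irreducible characters and form blocks -/
theorem single_irr (i j : Fin n) (hij : i < j) {a : F} (ha : a ≠ 0) :
    IsIrrChar (single th i j a) ∧ block th (lam i j a) = {single th i j a} := by
  obtain ⟨ψ, h1, h2, h3⟩ := block_single (th := th) (l := lam i j a)
    (fun m hm => orb_lam_conj i j hij a hm) hth
  obtain ⟨d, hd, hd1⟩ := Pool.Agent.H254R3.IN.IsIrr.deg h2
  have h4 := h3 1
  rw [orbSum_one, card_orb_lam i j hij ha, ← hd1] at h4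
  have h5 : d = Nat.card F ^ ((j : ℕ) - i - 1) := by
    have h6 : (Nat.card F ^ ((j : ℕ) - i - 1)) ^ 2 = d ^ 2 := by
      have : (((Nat.card F ^ ((j : ℕ) - i - 1)) ^ 2 : ℕ) : ℂ) = ((d ^ 2 : ℕ) : ℂ) := by
        rw [h4]
        push_cast
        ring
      exact_mod_cast this
    exact (Nat.pow_left_injective (by norm_num : 2 ≠ 0) h6).symm
  have h6 : single th i j a = ψ := by
    funext g
    unfold single
    rw [h3 g, ← hd1, h5]
    push_cast
    rw [← mul_assoc, inv_mul_cancel₀, one_mul]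
    refine pow_ne_zero _ ?_
    exact_mod_cast Nat.card_pos.ne'
  rw [h6]
  exact ⟨h2, h1⟩

end Pool.Agent.U979.SC
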