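import Pool.Agent.U979.SC.Sep

set_option autoImplicit false
set_option linter.unusedSectionVars false

open scoped BigOperators Classical
open Pool.Agent.Helper884.IC (B)

noncomputable section

namespace Pool.Agent.U979.SC

variable {n : ℕ} {F : Type} [Field F] [Finite F]

lemma andreX_eq (th : AddChar F ℂ) :
    andreX n F th = Set.range (fun q : Quotient (dset n F) => block th q.out) := by
  have := Fintype.ofFinite (U n F)
  ext A
  constructor
  · rintro ⟨l, rfl⟩
    refine ⟨⟦l⟧, ?_⟩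
    have h1 : block th (⟦l⟧ : Quotient (dset n F)).out = block th l := by
      rw [block_eq, block_eq, Quotient.out_eq]
    exact h1
  · rintro ⟨q, rfl⟩
    exact ⟨q.out, rfl⟩

lemma mem_block_iff [Fintype (U n F)] (th : AddChar F ℂ) {χ : U n F → ℂ} (hχ : IsIrrChar χ)
    (q : Quotient (dset n F)) : χ ∈ block th q.out ↔ B (fam th q) χ ≠ 0 := by
  rw [block_eq, Quotient.out_eq]
  exact ⟨fun h => h.2, fun h => ⟨hχ, h⟩⟩

theorem andre_sct {th : AddChar F ℂ} (hth : ∃ x, th x ≠ 1) : IsSCT (andreX n F th) (andreK n F) := by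
  have := Fintype.ofFinite (U n F)
  refine ⟨?_, ?_, ?_, ?_, ?_, ?_⟩
  · rintro A ⟨l, rfl⟩
    exact ⟨block_nonempty hth, fun χ h => h.1⟩
  · intro χ hχ
    obtain ⟨q, hq, huq⟩ := B_unique (fam th) fam_cl (fam_orth hth) (fam_sum' hth) hχ
    refine ⟨block th q.out, ⟨⟨q.out, rfl⟩, (mem_block_iff th hχ q).mpr hq⟩, ?_⟩
    rintro A ⟨hA, hχA⟩
    rw [andreX_eq] at hA
    obtain ⟨r, rfl⟩ := hA
    have h1 := (mem_block_iff th hχ r).mp hχA
    rw [huq r h1]
  · constructor
    · rintro ⟨x, hx⟩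
      have h1 : x ∈ superclass x := ⟨1, 1, by rw [act_one]⟩
      rw [← hx] at h1
      exact h1
    · intro g
      refine ⟨superclass g, ⟨⟨g, rfl⟩, ⟨1, 1, by rw [act_one]⟩⟩, ?_⟩
      rintro C ⟨⟨x, rfl⟩, hg⟩
      exact superclass_mem.mp hg
  · rw [← card_K_eq, andreX_eq]
    have hinj : Function.Injective (fun q : Quotient (dset n F) => block th q.out) := by
      intro q r h
      have h : block th q.out = block th r.out := h
      obtain ⟨χ, hχ⟩ := block_nonempty (l := q.out) hth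
      have h1 := (mem_block_iff th hχ.1 q).mp hχ
      have h2 : χ ∈ block th r.out := by rw [← h]; exact hχ
      have h3 := (mem_block_iff th hχ.1 r).mp h2
      exact (B_unique (fam th) fam_cl (fam_orth hth) (fam_sum' hth) hχ.1).unique h1 h3
    exact (Nat.card_congr (Equiv.ofInjective _ hinj)).symm
  · refine ⟨1, ?_⟩
    ext g
    rw [Set.mem_singleton_iff]
    constructor
    · rintro rfl
      exact ⟨1, 1, by rw [act_one]⟩
    · rintro ⟨u, v, h⟩
      rw [dd_one, map_zero] at h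
      apply dd_inj
      rw [h, dd_one]
  · rintro A ⟨l, rfl⟩ C ⟨x, rfl⟩ g hg h hh
    have hs := sigma_block (th := th) (l := l) hth
    have hs' : sigma {psi | IsIrrChar psi ∧ ∑ᶠ g : U n F, orbSum th l g * psi g⁻¹ ≠ 0} =
      orbSum th l := hs
    rw [hs']
    obtain ⟨u, v, e⟩ := hg
    obtain ⟨u', v', e'⟩ := hh
    rw [orbSum_act th l e, orbSum_act th l e']

theorem coarsest {th : AddChar F ℂ} (hth : ∃ x, th x ≠ 1) {X : Set (Set (U n F → ℂ))}
    {K : Set (Set (U n F))} (hXK : IsSCT X K)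
    (hs : ∀ i j : Fin n, i < j → ∀ a : F, a ≠ 0 → {single th i j a} ∈ X) :
    ∀ C ∈ K, ∃ C' ∈ andreK n F, C ⊆ C' := by
  intro C hC
  have hne : C.Nonempty := by
    rw [Set.nonempty_iff_ne_empty]
    rintro rfl
    exact hXK.part.1 hC
  obtain ⟨h, hh⟩ := hne
  refine ⟨superclass h, ⟨h, rfl⟩, fun g hg => ?_⟩
  refine superclass_sep hth fun i j hij a ha => ?_
  have h1 := hXK.const _ (hs i j hij a ha) C hC g hg h hh
  unfold sigma at h1
  rw [finsum_mem_singleton, finsum_mem_singleton] at h1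
  have h2 : IsIrrChar (single th i j a) := (hXK.irr _ (hs i j hij a ha)).2 _ rfl
  exact mul_left_cancel₀ (Pool.Agent.H254R3.IN.IsIrr.one_ne h2) h1

end Pool.Agent.U979.SC
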