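import Pool.Agent.U979.SC.Uni

set_option autoImplicit false
set_option linter.unusedSectionVars false

open scoped BigOperators Classical

noncomputable section

namespace Pool.Agent.U979.SC

variable {n : ℕ} {F : Type} [Field F]

/-- at most one nonzero entry in each row and column -/
def Basic (D : N n F) : Prop :=
  (∀ i j l, D.val i j ≠ 0 → D.val i l ≠ 0 → j = l) ∧
    ∀ i k j, D.val i j ≠ 0 → D.val k j ≠ 0 → i = k

/-- the rows with index at least `r` are reduced -/
def Red (r : ℕ) (D : N n F) : Prop :=
  ∀ i : Fin n, r ≤ (i : ℕ) → (∀ j l, D.val i j ≠ 0 → D.val i l ≠ 0 → j = l) ∧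
    ∀ j, D.val i j ≠ 0 → ∀ k, D.val k j ≠ 0 → k = i

lemma red_step (r : ℕ) (hr : r < n) (D : N n F) (hD : Red (r + 1) D) :
    ∃ u v : U n F, Red r (act u v D) := by
  set i : Fin n := ⟨r, hr⟩ with hi
  by_cases h0 : ∀ j, D.val i j = 0
  · refine ⟨1, 1, ?_⟩
    rw [act_one]
    intro k hk
    rcases hk.eq_or_lt with h | h
    · have hki : k = i := Fin.ext h.symm
      rw [hki]
      exact ⟨fun j l hj _ => absurd (h0 j) hj, fun j hj => absurd (h0 j) hj⟩
    · exact hD k h
  · push Not at h0
    obtain ⟨j, hj, hjmin⟩ : ∃ j, D.val i j ≠ 0 ∧ ∀ l, l < j → D.val i l = 0 := by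
      obtain ⟨j, hj⟩ := Finset.exists_min_image (Finset.univ.filter fun j => D.val i j ≠ 0) id
        (by obtain ⟨j, hj⟩ := h0; exact ⟨j, by simpa using hj⟩)
      refine ⟨j, by simpa using hj.1, fun l hl => ?_⟩
      by_contra h
      have := hj.2 l (by simpa using h)
      exact absurd this (not_le.mpr hl)
    set c := D.val i j with hc
    have hbelow : ∀ k, i < k → D.val k j = 0 := by
      intro k hk
      by_contra h
      have := (hD k hk).2 j h i hj
      exact hk.ne this
    let X : N n F := ⟨fun r s => if r = j ∧ j < s then -D.val i s / c else 0, by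
      intro r s h
      refine if_neg ?_
      rintro ⟨rfl, h2⟩
      exact absurd h2 (not_lt.mpr h)⟩
    set D1 := act 1 (uu X) D with hD1
    have e1 : ∀ k s, D1.val k s = D.val k s + (if j < s then D.val k j * (-D.val i s / c) else 0) := by
      intro k s
      have : D1.val = (1 : Matrix (Fin n) (Fin n) F) * D.val * (1 + X.val) := rfl
      rw [this, one_mul, mul_add, mul_one, Matrix.add_apply, Matrix.mul_apply]
      congr 1
      rw [Finset.sum_eq_single j]
      · change D.val k j * (if j = j ∧ j < s then -D.val i s / c else 0) = _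
        by_cases h : j < s
        · rw [if_pos ⟨rfl, h⟩, if_pos h]
        · rw [if_neg (fun h' => h h'.2), if_neg h, mul_zero]
      · intro t _ ht
        change D.val k t * (if t = j ∧ j < s then -D.val i s / c else 0) = 0
        rw [if_neg (fun h' => ht h'.1), mul_zero]
      · intro h
        exact absurd (Finset.mem_univ j) h
    have r1 : ∀ s, s ≠ j → D1.val i s = 0 := by
      intro s hs
      rw [e1]
      rcases lt_or_gt_of_ne hs with h | h
      · rw [if_neg h.le.not_gt, add_zero, hjmin s h]
      · rw [if_pos h, ← hc]
        field_simp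
        ring
    have r2 : D1.val i j = c := by rw [e1, if_neg (lt_irrefl j), add_zero]
    have r3 : ∀ k, i < k → ∀ s, D1.val k s = D.val k s := by
      intro k hk s
      rw [e1, hbelow k hk, zero_mul, ite_self, add_zero]
    let Y : N n F := ⟨fun r s => if s = i ∧ r < i then -D1.val r j / c else 0, by
      intro r s h
      refine if_neg ?_
      rintro ⟨rfl, h2⟩
      exact absurd h2 (not_lt.mpr h)⟩
    set D2 := act (uu Y) 1 D1 with hD2
    have e2 : ∀ k s, D2.val k s = D1.val k s + (if k < i then (-D1.val k j / c) * D1.val i s else 0) := by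
      intro k s
      have : D2.val = (1 + Y.val) * D1.val * (1 : Matrix (Fin n) (Fin n) F) := rfl
      rw [this, mul_one, add_mul, one_mul, Matrix.add_apply, Matrix.mul_apply]
      congr 1
      rw [Finset.sum_eq_single i]
      · change (if i = i ∧ k < i then -D1.val k j / c else 0) * D1.val i s = _
        by_cases h : k < i
        · rw [if_pos ⟨rfl, h⟩, if_pos h]
        · rw [if_neg (fun h' => h h'.2), if_neg h, zero_mul]
      · intro t _ ht
        change (if t = i ∧ k < i then -D1.val k j / c else 0) * D1.val t s = 0
        rw [if_neg (fun h' => ht h'.1), zero_mul]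
      · intro h
        exact absurd (Finset.mem_univ i) h
    have s1 : ∀ k s, s ≠ j → D2.val k s = D1.val k s := by
      intro k s hs
      rw [e2, r1 s hs, mul_zero, ite_self, add_zero]
    have s2 : ∀ k, k ≠ i → D2.val k j = 0 := by
      intro k hk
      rw [e2]
      rcases lt_or_gt_of_ne hk with h | h
      · rw [if_pos h, r2]
        field_simp
        ring
      · rw [if_neg h.le.not_gt, add_zero, r3 k h, hbelow k h]
    have s3 : ∀ s, s ≠ j → D2.val i s = 0 := by
      intro s hs
      rw [s1 i s hs, r1 s hs]
    have s4 : ∀ k, i < k → ∀ s, D2.val k s = D.val k s := by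
      intro k hk s
      by_cases hs : s = j
      · rw [hs, s2 k hk.ne', hbelow k hk]
      · rw [s1 k s hs, r3 k hk]
    refine ⟨uu Y, uu X, ?_⟩
    have hact : act (uu Y) (uu X) D = D2 := by
      rw [hD2, hD1, act_act, mul_one, mul_one]
    rw [hact]
    intro k hk
    rcases hk.eq_or_lt with h | h
    · have hki : k = i := Fin.ext h.symm
      subst hki
      refine ⟨fun s t hs ht => ?_, fun s hs k' hk' => ?_⟩
      · have h1 : s = j := by
          by_contra h'
          exact hs (s3 s h')
        have h2 : t = j := by
          by_contra h'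
          exact ht (s3 t h')
        rw [h1, h2]
      · have h1 : s = j := by
          by_contra h'
          exact hs (s3 s h')
        subst h1
        by_contra h'
        exact hk' (s2 k' h')
    · have hik : i < k := h
      have hDk := hD k h
      refine ⟨fun s t hs ht => ?_, fun s hs k' hk' => ?_⟩
      · rw [s4 k hik] at hs ht
        exact hDk.1 s t hs ht
      · have hsj : s ≠ j := by
          rintro rfl
          exact hs (s2 k hik.ne')
        rw [s4 k hik] at hs
        apply hDk.2 s hs k'
        have hz : D.val i s = 0 := by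
          by_contra h'
          exact hik.ne (hDk.2 s hs i h')
        rw [s1 k' s hsj, e1, hz] at hk'
        simpa using hk'

lemma red_all (x : N n F) : ∀ t : ℕ, t ≤ n → ∃ u v : U n F, Red (n - t) (act u v x) := by
  intro t
  induction t with
  | zero =>
    intro _
    refine ⟨1, 1, fun i hi => ?_⟩
    exact absurd i.2 (by omega)
  | succ t ih =>
    intro ht
    obtain ⟨u, v, h⟩ := ih (by omega)
    have h1 : n - (t + 1) + 1 = n - t := by omega
    rw [← h1] at h
    obtain ⟨u', v', h'⟩ := red_step (n - (t + 1)) (by omega) _ h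
    refine ⟨u' * u, v * v', ?_⟩
    rwa [act_act] at h'

/-- every two-sided orbit on `𝔫` contains a basic matrix -/
theorem exists_basic (x : N n F) : ∃ u v : U n F, Basic (act u v x) := by
  obtain ⟨u, v, h⟩ := red_all x n le_rfl
  rw [Nat.sub_self] at h
  refine ⟨u, v, fun i j l h1 h2 => (h i (Nat.zero_le _)).1 j l h1 h2, fun i k j h1 h2 => ?_⟩
  exact ((h i (Nat.zero_le _)).2 j h1 k h2).symm

end Pool.Agent.U979.SC
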