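import Pool.Agent.U979.SC.Norm
import Pool.Agent.U979.SC.Irr

set_option autoImplicit false
set_option linter.unusedSectionVars false

open scoped BigOperators Classical

noncomputable section

namespace Pool.Agent.U979.SC

variable {n : ℕ} {F : Type} [Field F] [Finite F]

instance : Fintype F := Fintype.ofFinite F

/-- the part of `Phi` without the entry `x i j` -/
def Rest (i j : Fin n) (p : (Finset.Ioo i j → F) × (Finset.Ioo i j → F)) (x : N n F) : F :=
  ∑ k : Finset.Ioo i j, p.1 k * x.val k j + ∑ l : Finset.Ioo i j, x.val i l * p.2 l +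
    ∑ l : Finset.Ioo i j, ∑ k : Finset.Ioo i j, p.1 k * x.val k l * p.2 l

omit [Finite F] in
lemma Phi_rest (i j : Fin n) (a : F) (p : (Finset.Ioo i j → F) × (Finset.Ioo i j → F)) (x : N n F) :
    Phi i j a p x = a * x.val i j + a * Rest i j p x := by
  unfold Phi Rest
  simp only [LinearMap.coe_mk, AddHom.coe_mk]
  ring

/-- the value of the orbit sum -/
def val (th : AddChar F ℂ) (i j : Fin n) (a : F) (x : N n F) : ℂ :=
  ∑ p : (Finset.Ioo i j → F) × (Finset.Ioo i j → F), th (Phi i j a p x)

/-- the sum without the entry `x i j` -/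
def SS (th : AddChar F ℂ) (i j : Fin n) (a : F) (x : N n F) : ℂ :=
  ∑ p : (Finset.Ioo i j → F) × (Finset.Ioo i j → F), th (a * Rest i j p x)

lemma val_eq (th : AddChar F ℂ) (i j : Fin n) (a : F) (x : N n F) :
    val th i j a x = th (a * x.val i j) * SS th i j a x := by
  unfold val SS
  rw [Finset.mul_sum]
  refine Finset.sum_congr rfl fun p _ => ?_
  rw [Phi_rest, AddChar.map_add_eq_mul]

lemma orbSum_val (th : AddChar F ℂ) (i j : Fin n) (hij : i < j) {a : F} (ha : a ≠ 0) (g : U n F) :
    orbSum th (lam i j a) g = val th i j a (dd g) := by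
  unfold orbSum val
  rw [orb_lam i j hij a, finsum_mem_range (Phi_inj i j ha), finsum_eq_sum_of_fintype]

lemma orbSum_act (th : AddChar F ℂ) (l : N n F →ₗ[F] F) {g h : U n F} {u v : U n F}
    (e : dd g = act u v (dd h)) : orbSum th l g = orbSum th l h := by
  unfold orbSum
  refine finsum_mem_eq_of_bijOn (fun m => m ∘ₗ act u v) ⟨?_, ?_, ?_⟩ ?_
  · intro m hm
    exact orb_act hm _ _
  · intro m _ m' _ h
    have h1 := congrArg (fun k => k ∘ₗ act u⁻¹ v⁻¹) h
    simp only [LinearMap.comp_assoc, act_comp] at h1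
    rw [mul_inv_cancel, inv_mul_cancel] at h1
    ext1 z
    have h2 := LinearMap.congr_fun h1 z
    rw [LinearMap.comp_apply, LinearMap.comp_apply, act_one] at h2
    exact h2
  · intro m hm
    refine ⟨m ∘ₗ act u⁻¹ v⁻¹, orb_act hm _ _, ?_⟩
    simp only [LinearMap.comp_assoc, act_comp]
    rw [inv_mul_cancel, mul_inv_cancel]
    ext1 z
    rw [LinearMap.comp_apply, act_one]
  · intro m _
    rw [e]
    rfl

lemma val_act (th : AddChar F ℂ) (i j : Fin n) (hij : i < j) {a : F} (ha : a ≠ 0) (u v : U n F)
    (x : N n F) : val th i j a (act u v x) = val th i j a x := by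
  have h1 := orbSum_val th i j hij ha (uu (act u v x))
  have h2 := orbSum_val th i j hij ha (uu x)
  rw [dd_uu] at h1 h2
  rw [← h1, ← h2]
  apply orbSum_act (u := u) (v := v)
  rw [dd_uu, dd_uu]

lemma SS_congr (th : AddChar F ℂ) (i j : Fin n) (a : F) (x y : N n F)
    (h : ∀ k l : Fin n, k < l → (l : ℕ) - k < (j : ℕ) - i → x.val k l = y.val k l) :
    SS th i j a x = SS th i j a y := by
  unfold SS
  refine Finset.sum_congr rfl fun p _ => ?_
  congr 2
  unfold Rest
  congr 1
  · congr 1
    · refine Finset.sum_congr rfl fun k _ => ?_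
      have hk := Finset.mem_Ioo.mp k.2
      have h1 : (i : ℕ) < (k : Fin n) := hk.1
      have h2 : ((k : Fin n) : ℕ) < j := hk.2
      rw [h k j hk.2 (by omega)]
    · refine Finset.sum_congr rfl fun k _ => ?_
      have hk := Finset.mem_Ioo.mp k.2
      have h1 : (i : ℕ) < (k : Fin n) := hk.1
      have h2 : ((k : Fin n) : ℕ) < j := hk.2
      rw [h i k hk.1 (by omega)]
  · refine Finset.sum_congr rfl fun l _ => Finset.sum_congr rfl fun k _ => ?_
    have hk := Finset.mem_Ioo.mp k.2
    have hl := Finset.mem_Ioo.mp l.2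
    have h1 : (i : ℕ) < (k : Fin n) := hk.1
    have h2 : ((l : Fin n) : ℕ) < j := hl.2
    by_cases hkl : (k : Fin n) < l
    · rw [h k l hkl (by omega)]
    · rw [x.2 k l (not_lt.mp hkl), y.2 k l (not_lt.mp hkl)]

lemma SS_ne (th : AddChar F ℂ) (i j : Fin n) (a : F) (x : N n F)
    (h1 : ∀ k, i < k → k < j → x.val k j = 0) (h2 : ∀ l, i < l → l < j → x.val i l = 0) :
    SS th i j a x ≠ 0 := by
  have hR : ∀ p : (Finset.Ioo i j → F) × (Finset.Ioo i j → F), Rest i j p x =
      ∑ l : Finset.Ioo i j, (∑ k : Finset.Ioo i j, p.1 k * x.val k l) * p.2 l := by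
    intro p
    unfold Rest
    rw [Finset.sum_eq_zero (s := Finset.univ) (f := fun k : Finset.Ioo i j => p.1 k * x.val k j),
      Finset.sum_eq_zero (s := Finset.univ) (f := fun l : Finset.Ioo i j => x.val i l * p.2 l),
      zero_add, zero_add]
    · refine Finset.sum_congr rfl fun l _ => ?_
      rw [Finset.sum_mul]
    · intro l _
      rw [h2 l (Finset.mem_Ioo.mp l.2).1 (Finset.mem_Ioo.mp l.2).2, zero_mul]
    · intro k _
      rw [h1 k (Finset.mem_Ioo.mp k.2).1 (Finset.mem_Ioo.mp k.2).2, mul_zero]
  let L : (Finset.Ioo i j → F) → ((Finset.Ioo i j → F) →+ F) := fun α =>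
    { toFun := fun β => a * ∑ l : Finset.Ioo i j, (∑ k : Finset.Ioo i j, α k * x.val k l) * β l
      map_zero' := by simp
      map_add' := fun β β' => by simp [mul_add, Finset.sum_add_distrib] }
  let ψ : (Finset.Ioo i j → F) → AddChar (Finset.Ioo i j → F) ℂ := fun α => th.compAddMonoidHom (L α)
  have h3 : SS th i j a x = ∑ α : Finset.Ioo i j → F, ∑ β : Finset.Ioo i j → F, ψ α β := by
    unfold SS
    rw [Fintype.sum_prod_type]
    refine Finset.sum_congr rfl fun α _ => Finset.sum_congr rfl fun β _ => ?_
    rw [hR]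
    rfl
  have h4 : ∀ α, ∑ β : Finset.Ioo i j → F, ψ α β =
      ((if ψ α = 0 then Fintype.card (Finset.Ioo i j → F) else 0 : ℕ) : ℂ) := by
    intro α
    rw [AddChar.sum_eq_ite]
    split_ifs <;> simp
  rw [h3]
  simp only [h4]
  rw [← Nat.cast_sum]
  intro h5
  have h6 : ∑ α : Finset.Ioo i j → F, (if ψ α = 0 then Fintype.card (Finset.Ioo i j → F) else 0) = 0 := by
    exact_mod_cast h5
  rw [Finset.sum_eq_zero_iff] at h6
  have h7 := h6 0 (Finset.mem_univ _)
  have h8 : ψ 0 = 0 := by
    apply DFunLike.ext
    intro β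
    change th (a * ∑ l : Finset.Ioo i j, (∑ k : Finset.Ioo i j, (0 : Finset.Ioo i j → F) k * x.val k l) * β l) = 1
    simp
  rw [if_pos h8] at h7
  exact Fintype.card_ne_zero h7

/-- basic matrices are separated by the single-box values -/
theorem basic_sep {th : AddChar F ℂ} (hth : ∃ x, th x ≠ 1) {D E : N n F} (hD : Basic D) (hE : Basic E)
    (h : ∀ i j : Fin n, i < j → ∀ a : F, a ≠ 0 → val th i j a D = val th i j a E) : D = E := by
  have key : ∀ t : ℕ, ∀ i j : Fin n, i < j → (j : ℕ) - i = t → D.val i j = E.val i j := by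
    intro t
    induction t using Nat.strong_induction_on with
    | _ t ih =>
      intro i j hij ht
      have hlow : ∀ k l : Fin n, k < l → (l : ℕ) - k < (j : ℕ) - i → D.val k l = E.val k l := by
        intro k l hkl h1
        exact ih ((l : ℕ) - k) (by omega) k l hkl rfl
      have hval : ∀ a : F, a ≠ 0 →
          th (a * D.val i j) * SS th i j a D = th (a * E.val i j) * SS th i j a D := by
        intro a ha
        have h1 := h i j hij a ha
        rwa [val_eq, val_eq, ← SS_congr th i j a D E hlow] at h1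
      by_cases h1 : ∀ k, i < k → k < j → D.val k j = 0
      · by_cases h2 : ∀ l, i < l → l < j → D.val i l = 0
        · rw [← sub_eq_zero]
          apply th_sep hth
          intro c
          by_cases hc : c = 0
          · rw [hc, zero_mul, AddChar.map_zero_eq_one]
          · have h3 := mul_right_cancel₀ (SS_ne th i j c D h1 h2) (hval c hc)
            rw [mul_sub, AddChar.map_sub_eq_div, h3]
            exact div_self (AddChar.val_isUnit th _).ne_zero
        · push Not at h2
          obtain ⟨l, hl1, hl2, hl3⟩ := h2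
          have hl4 : E.val i l ≠ 0 := by
            have h5 : (i : ℕ) < l := hl1
            have h6 : (l : ℕ) < j := hl2
            rwa [← hlow i l hl1 (by omega)]
          have h3 : D.val i j = 0 := by
            by_contra h4
            exact hl2.ne (hD.1 i l j hl3 h4)
          have h4 : E.val i j = 0 := by
            by_contra h5
            exact hl2.ne (hE.1 i l j hl4 h5)
          rw [h3, h4]
      · push Not at h1
        obtain ⟨k, hk1, hk2, hk3⟩ := h1
        have hk4 : E.val k j ≠ 0 := by
          have h5 : (i : ℕ) < k := hk1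
          have h6 : (k : ℕ) < j := hk2
          rwa [← hlow k j hk2 (by omega)]
        have h3 : D.val i j = 0 := by
          by_contra h4
          exact hk1.ne (hD.2 i k j h4 hk3)
        have h4 : E.val i j = 0 := by
          by_contra h5
          exact hk1.ne (hE.2 i k j h5 hk4)
        rw [h3, h4]
  apply Subtype.ext
  ext i j
  by_cases hij : i < j
  · exact key _ i j hij rfl
  · rw [D.2 i j (not_lt.mp hij), E.2 i j (not_lt.mp hij)]

/-- two elements at which all single-box characters agree lie in one superclass -/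
theorem superclass_sep {th : AddChar F ℂ} (hth : ∃ x, th x ≠ 1) {g h : U n F}
    (H : ∀ i j : Fin n, i < j → ∀ a : F, a ≠ 0 → single th i j a g = single th i j a h) :
    g ∈ superclass h := by
  obtain ⟨u, v, hD⟩ := exists_basic (dd g)
  obtain ⟨u', v', hE⟩ := exists_basic (dd h)
  have h1 : act u v (dd g) = act u' v' (dd h) := by
    refine basic_sep hth hD hE fun i j hij a ha => ?_
    rw [val_act th i j hij ha, val_act th i j hij ha, ← orbSum_val th i j hij ha, ← orbSum_val th i j hij ha]
    have h2 := H i j hij a ha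
    unfold single at h2
    refine mul_left_cancel₀ ?_ h2
    apply inv_ne_zero
    refine pow_ne_zero _ ?_
    exact_mod_cast Nat.card_pos.ne'
  refine ⟨u⁻¹ * u', v' * v⁻¹, ?_⟩
  rw [← act_act, ← h1, act_act, inv_mul_cancel, mul_inv_cancel, act_one]

end Pool.Agent.U979.SC
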