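import Pool.Agent.U979.SC.Cnt

set_option autoImplicit false
set_option linter.unusedSectionVars false

open scoped BigOperators Classical
open Pool.Agent.H254R3.IN (conv Om dl IsCl Om_conv Om_dl)
open Pool.Agent.Helper884.IC (B B_irr)

noncomputable section

namespace Pool.Agent.U979.SC

variable {n : ℕ} {F : Type} [Field F]

/-- `(u x v)_{ij}` -/
lemma entry (u v : U n F) (x : N n F) (i j : Fin n) (hij : i < j) :
    (act u v x).val i j = x.val i j + ∑ k ∈ Finset.Ioo i j, u.val.val i k * x.val k j +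
      ∑ l ∈ Finset.Ioo i j, x.val i l * v.val.val l j +
      ∑ l ∈ Finset.Ioo i j, ∑ k ∈ Finset.Ioo i j, u.val.val i k * x.val k l * v.val.val l j := by
  have hh : ∀ l : Fin n, l ≤ j → ∑ k, u.val.val i k * x.val k l =
      x.val i l + ∑ k ∈ Finset.Ioo i j, u.val.val i k * x.val k l := by
    intro l hl
    have h1 : ∑ k, u.val.val i k * x.val k l = ∑ k ∈ Finset.Ico i j, u.val.val i k * x.val k l := by
      symm
      refine Finset.sum_subset (Finset.subset_univ _) fun k _ hk => ?_
      rw [Finset.mem_Ico, not_and_or, not_le, not_lt] at hk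
      rcases hk with h | h
      · rw [u.2.2 i k h, zero_mul]
      · rw [x.2 k l (hl.trans h), mul_zero]
    rw [h1, ← Finset.Ioo_insert_left hij, Finset.sum_insert Finset.left_notMem_Ioo, u.2.1 i, one_mul]
  have h0 : (act u v x).val i j = ∑ l, (∑ k, u.val.val i k * x.val k l) * v.val.val l j := by
    rw [act_val, Matrix.mul_apply]
    refine Finset.sum_congr rfl fun l _ => ?_
    rw [Matrix.mul_apply]
  have h2 : ∑ l, (∑ k, u.val.val i k * x.val k l) * v.val.val l j =
      ∑ l ∈ Finset.Ioc i j, (∑ k, u.val.val i k * x.val k l) * v.val.val l j := by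
    symm
    refine Finset.sum_subset (Finset.subset_univ _) fun l _ hl => ?_
    rw [Finset.mem_Ioc, not_and_or, not_lt, not_le] at hl
    rcases hl with h | h
    · rw [Finset.sum_eq_zero, zero_mul]
      intro k _
      rcases lt_or_ge k i with h3 | h3
      · rw [u.2.2 i k h3, zero_mul]
      · rw [x.2 k l (h.trans h3), mul_zero]
    · rw [v.2.2 l j h, mul_zero]
  have h5 : ∑ l ∈ Finset.Ioo i j, (∑ k, u.val.val i k * x.val k l) * v.val.val l j =
      ∑ l ∈ Finset.Ioo i j, x.val i l * v.val.val l j +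
      ∑ l ∈ Finset.Ioo i j, ∑ k ∈ Finset.Ioo i j, u.val.val i k * x.val k l * v.val.val l j := by
    rw [← Finset.sum_add_distrib]
    refine Finset.sum_congr rfl fun l hl => ?_
    rw [hh l (Finset.mem_Ioo.mp hl).2.le, add_mul, Finset.sum_mul]
  rw [h0, h2, ← Finset.Ioo_insert_right hij, Finset.sum_insert Finset.right_notMem_Ioo, v.2.1 j, mul_one,
    hh j le_rfl, h5, ← add_assoc]

/-- the functional with parameters `α, β` in the orbit of `lam i j a` -/
def Phi (i j : Fin n) (a : F) (p : (Finset.Ioo i j → F) × (Finset.Ioo i j → F)) : N n F →ₗ[F] F where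
  toFun x := a * (x.val i j + ∑ k : Finset.Ioo i j, p.1 k * x.val k j +
    ∑ l : Finset.Ioo i j, x.val i l * p.2 l +
    ∑ l : Finset.Ioo i j, ∑ k : Finset.Ioo i j, p.1 k * x.val k l * p.2 l)
  map_add' x y := by
    simp only [Submodule.coe_add, Matrix.add_apply, mul_add, add_mul, Finset.sum_add_distrib]
    ring
  map_smul' c x := by
    simp only [Submodule.coe_smul, Matrix.smul_apply, smul_eq_mul, RingHom.id_apply, mul_add,
      Finset.mul_sum]
    congr 1
    · congr 1
      · congr 1
        · ring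
        · refine Finset.sum_congr rfl fun k _ => ?_
          ring
      · refine Finset.sum_congr rfl fun k _ => ?_
        ring
    · refine Finset.sum_congr rfl fun k _ => ?_
      refine Finset.sum_congr rfl fun l _ => ?_
      ring

lemma lam_act (u v : U n F) (i j : Fin n) (hij : i < j) (a : F) :
    lam i j a ∘ₗ act u v = Phi i j a (fun k => u.val.val i k, fun l => v.val.val l j) := by
  ext1 x
  change a * (act u v x).val i j = _
  rw [entry u v x i j hij]
  unfold Phi
  simp only [LinearMap.coe_mk, AddHom.coe_mk]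
  congr 1
  rw [← Finset.sum_coe_sort (Finset.Ioo i j) (fun k => u.val.val i k * x.val k j),
    ← Finset.sum_coe_sort (Finset.Ioo i j) (fun l => x.val i l * v.val.val l j),
    ← Finset.sum_coe_sort (Finset.Ioo i j)
      (fun l => ∑ k ∈ Finset.Ioo i j, u.val.val i k * x.val k l * v.val.val l j)]
  congr 1
  refine Finset.sum_congr rfl fun l _ => ?_
  exact (Finset.sum_coe_sort (Finset.Ioo i j) (fun k => u.val.val i k * x.val k l * v.val.val l j)).symm

/-- matrix with the entries `α` in row `i` -/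
def rowN (i j : Fin n) (α : Finset.Ioo i j → F) : N n F :=
  ⟨fun r s => if h : r = i ∧ s ∈ Finset.Ioo i j then α ⟨s, h.2⟩ else 0, by
    intro r s h
    refine dif_neg ?_
    rintro ⟨rfl, h2⟩
    exact absurd (Finset.mem_Ioo.mp h2).1 (not_lt.mpr h)⟩

/-- matrix with the entries `β` in column `j` -/
def colN (i j : Fin n) (β : Finset.Ioo i j → F) : N n F :=
  ⟨fun r s => if h : s = j ∧ r ∈ Finset.Ioo i j then β ⟨r, h.2⟩ else 0, by
    intro r s h
    refine dif_neg ?_
    rintro ⟨rfl, h2⟩
    exact absurd (Finset.mem_Ioo.mp h2).2 (not_lt.mpr h)⟩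

lemma exists_w (i j : Fin n) (p : (Finset.Ioo i j → F) × (Finset.Ioo i j → F)) :
    ∃ w : U n F, (∀ k : Finset.Ioo i j, w.val.val i k = p.1 k) ∧
      ∀ l : Finset.Ioo i j, (w⁻¹ : U n F).val.val l j = p.2 l := by
  obtain ⟨α, β⟩ := p
  set u := uu (rowN i j α) with hu
  set v := uu (colN i j β) with hv
  have hu1 : ∀ r s, u.val.val r s = (1 : Matrix (Fin n) (Fin n) F) r s +
      (rowN i j α).val r s := fun r s => by rw [hu, uu_val, Matrix.add_apply]
  have hv1 : ∀ r s, v.val.val r s = (1 : Matrix (Fin n) (Fin n) F) r s +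
      (colN i j β).val r s := fun r s => by rw [hv, uu_val, Matrix.add_apply]
  refine ⟨u * v⁻¹, fun k => ?_, fun l => ?_⟩
  · have h1 : (u * v⁻¹ : U n F) * v = u := by group
    have h2 := congrArg (fun g : U n F => g.val.val i k) h1
    simp only [vmul (u * v⁻¹) v] at h2
    rw [Matrix.mul_apply] at h2
    have hkj : (k : Fin n) ≠ j := (Finset.mem_Ioo.mp k.2).2.ne
    have h3 : ∀ r, v.val.val r k = if r = k then 1 else 0 := by
      intro r
      rw [hv1, Matrix.one_apply]
      unfold colN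
      simp [hkj]
    simp only [h3, mul_ite, mul_one, mul_zero, Finset.sum_ite_eq', Finset.mem_univ, if_true] at h2
    rw [h2, hu1, Matrix.one_apply_ne (Finset.mem_Ioo.mp k.2).1.ne, zero_add]
    unfold rowN
    simp
  · have h0 : (u * v⁻¹)⁻¹ = v * u⁻¹ := by group
    rw [h0]
    have h1 : (v * u⁻¹ : U n F) * u = v := by group
    have h2 := congrArg (fun g : U n F => g.val.val l j) h1
    simp only [vmul (v * u⁻¹) u] at h2
    rw [Matrix.mul_apply] at h2
    have h3 : ∀ r, u.val.val r j = if r = j then 1 else 0 := by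
      intro r
      rw [hu1, Matrix.one_apply]
      unfold rowN
      simp
    simp only [h3, mul_ite, mul_one, mul_zero, Finset.sum_ite_eq', Finset.mem_univ, if_true] at h2
    rw [h2, hv1, Matrix.one_apply_ne (Finset.mem_Ioo.mp l.2).2.ne, zero_add]
    unfold colN
    simp

lemma orb_lam (i j : Fin n) (hij : i < j) (a : F) : orb (lam i j a) = Set.range (Phi i j a) := by
  ext m
  constructor
  · rintro ⟨u, v, rfl⟩
    exact ⟨_, (lam_act u v i j hij a).symm⟩
  · rintro ⟨p, rfl⟩
    obtain ⟨w, h1, h2⟩ := exists_w i j p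
    refine ⟨w, w⁻¹, ?_⟩
    rw [lam_act w w⁻¹ i j hij a]
    congr 1
    exact Prod.ext (funext fun k => (h1 k).symm) (funext fun l => (h2 l).symm)

lemma orb_lam_conj (i j : Fin n) (hij : i < j) (a : F) {m : N n F →ₗ[F] F} (hm : m ∈ orb (lam i j a)) :
    ∃ w : U n F, m = lam i j a ∘ₗ act w w⁻¹ := by
  rw [orb_lam i j hij a] at hm
  obtain ⟨p, rfl⟩ := hm
  obtain ⟨w, h1, h2⟩ := exists_w i j p
  refine ⟨w, ?_⟩
  rw [lam_act w w⁻¹ i j hij a]
  congr 1
  exact Prod.ext (funext fun k => (h1 k).symm) (funext fun l => (h2 l).symm)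

/-- matrix unit -/
def EN (r s : Fin n) (h : r < s) : N n F := ⟨Matrix.single r s 1, by
  intro r' s' h'
  rw [Matrix.single_apply, if_neg]
  rintro ⟨rfl, rfl⟩
  exact absurd h (not_lt.mpr h')⟩

lemma Phi_row (i j : Fin n) (a : F) (p : (Finset.Ioo i j → F) × (Finset.Ioo i j → F))
    (k : Finset.Ioo i j) : Phi i j a p (EN k j (Finset.mem_Ioo.mp k.2).2) = a * p.1 k := by
  have hk := Finset.mem_Ioo.mp k.2
  change a * (Matrix.single (k : Fin n) j (1 : F) i j +
    ∑ k' : Finset.Ioo i j, p.1 k' * Matrix.single (k : Fin n) j (1 : F) k' j +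
    ∑ l : Finset.Ioo i j, Matrix.single (k : Fin n) j (1 : F) i l * p.2 l +
    ∑ l : Finset.Ioo i j, ∑ k' : Finset.Ioo i j,
      p.1 k' * Matrix.single (k : Fin n) j (1 : F) k' l * p.2 l) = _
  have h1 : Matrix.single (k : Fin n) j (1 : F) i j = 0 := by
    rw [Matrix.single_apply, if_neg]
    rintro ⟨h, _⟩
    exact hk.1.ne' h
  have h2 : ∑ k' : Finset.Ioo i j, p.1 k' * Matrix.single (k : Fin n) j (1 : F) k' j = p.1 k := by
    rw [Finset.sum_eq_single k]
    · rw [Matrix.single_apply_same, mul_one]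
    · intro k' _ hne
      rw [Matrix.single_apply, if_neg, mul_zero]
      rintro ⟨h, _⟩
      exact hne (Subtype.ext h.symm)
    · intro h
      exact absurd (Finset.mem_univ k) h
  have h3 : ∑ l : Finset.Ioo i j, Matrix.single (k : Fin n) j (1 : F) i l * p.2 l = 0 := by
    refine Finset.sum_eq_zero fun l _ => ?_
    rw [Matrix.single_apply, if_neg, zero_mul]
    rintro ⟨h, _⟩
    exact hk.1.ne' h
  have h4 : ∑ l : Finset.Ioo i j, ∑ k' : Finset.Ioo i j,
      p.1 k' * Matrix.single (k : Fin n) j (1 : F) k' l * p.2 l = 0 := by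
    refine Finset.sum_eq_zero fun l _ => Finset.sum_eq_zero fun k' _ => ?_
    rw [Matrix.single_apply, if_neg, mul_zero, zero_mul]
    rintro ⟨_, h⟩
    exact (Finset.mem_Ioo.mp l.2).2.ne' h
  rw [h1, h2, h3, h4, zero_add, add_zero, add_zero]

lemma Phi_col (i j : Fin n) (a : F) (p : (Finset.Ioo i j → F) × (Finset.Ioo i j → F))
    (l : Finset.Ioo i j) : Phi i j a p (EN i l (Finset.mem_Ioo.mp l.2).1) = a * p.2 l := by
  have hl := Finset.mem_Ioo.mp l.2
  change a * (Matrix.single i (l : Fin n) (1 : F) i j +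
    ∑ k' : Finset.Ioo i j, p.1 k' * Matrix.single i (l : Fin n) (1 : F) k' j +
    ∑ l' : Finset.Ioo i j, Matrix.single i (l : Fin n) (1 : F) i l' * p.2 l' +
    ∑ l' : Finset.Ioo i j, ∑ k' : Finset.Ioo i j,
      p.1 k' * Matrix.single i (l : Fin n) (1 : F) k' l' * p.2 l') = _
  have h1 : Matrix.single i (l : Fin n) (1 : F) i j = 0 := by
    rw [Matrix.single_apply, if_neg]
    rintro ⟨_, h⟩
    exact hl.2.ne h
  have h3 : ∑ l' : Finset.Ioo i j, Matrix.single i (l : Fin n) (1 : F) i l' * p.2 l' = p.2 l := by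
    rw [Finset.sum_eq_single l]
    · rw [Matrix.single_apply_same, one_mul]
    · intro l' _ hne
      rw [Matrix.single_apply, if_neg, zero_mul]
      rintro ⟨_, h⟩
      exact hne (Subtype.ext h.symm)
    · intro h
      exact absurd (Finset.mem_univ l) h
  have h2 : ∑ k' : Finset.Ioo i j, p.1 k' * Matrix.single i (l : Fin n) (1 : F) k' j = 0 := by
    refine Finset.sum_eq_zero fun k' _ => ?_
    rw [Matrix.single_apply, if_neg, mul_zero]
    rintro ⟨_, h⟩
    exact hl.2.ne h
  have h4 : ∑ l' : Finset.Ioo i j, ∑ k' : Finset.Ioo i j,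
      p.1 k' * Matrix.single i (l : Fin n) (1 : F) k' l' * p.2 l' = 0 := by
    refine Finset.sum_eq_zero fun l' _ => Finset.sum_eq_zero fun k' _ => ?_
    rw [Matrix.single_apply, if_neg, mul_zero, zero_mul]
    rintro ⟨h, _⟩
    exact (Finset.mem_Ioo.mp k'.2).1.ne h
  rw [h1, h2, h3, h4, zero_add, zero_add, add_zero]

lemma Phi_inj (i j : Fin n) {a : F} (ha : a ≠ 0) : Function.Injective (Phi i j a) := by
  rintro p p' h
  refine Prod.ext (funext fun k => ?_) (funext fun l => ?_)
  · have h1 := LinearMap.congr_fun h (EN k j (Finset.mem_Ioo.mp k.2).2)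
    rw [Phi_row, Phi_row] at h1
    exact mul_left_cancel₀ ha h1
  · have h1 := LinearMap.congr_fun h (EN i l (Finset.mem_Ioo.mp l.2).1)
    rw [Phi_col, Phi_col] at h1
    exact mul_left_cancel₀ ha h1

end Pool.Agent.U979.SC
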