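import Pool.Agent.U979.SC.Gen

set_option autoImplicit false
set_option linter.unusedSectionVars false

open scoped BigOperators Classical
open Pool.Agent.H254R3.IN (conv Om dl IsCl Om_conv Om_dl)

noncomputable section

namespace Pool.Agent.U979.SC

variable {n : ℕ} {F : Type} [Field F]

lemma act_val (u v : U n F) (y : N n F) : (act u v y).val = u.val.val * y.val * v.val.val := rfl

lemma dd_val (g : U n F) : (dd g).val = g.val.val - 1 := rfl

lemma act_act (u v u' v' : U n F) (y : N n F) : act u v (act u' v' y) = act (u * u') (v' * v) y := by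
  apply Subtype.ext
  simp only [act_val, Subgroup.coe_mul, Units.val_mul, mul_assoc]

lemma act_one (y : N n F) : act (1 : U n F) 1 y = y := by
  apply Subtype.ext
  simp [act_val]

lemma act_comp (u v u' v' : U n F) : act u v ∘ₗ act u' v' = act (u * u') (v' * v) := by
  ext1 y
  exact act_act u v u' v' y

lemma dd_one : dd (1 : U n F) = 0 := by
  apply Subtype.ext
  simp [dd_val]

lemma vinv (u : U n F) : u.val.val * (u⁻¹ : U n F).val.val = 1 := by
  rw [← Units.val_mul, ← Subgroup.coe_mul, mul_inv_cancel]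
  rfl

lemma vinv' (u : U n F) : (u⁻¹ : U n F).val.val * u.val.val = 1 := by
  rw [← Units.val_mul, ← Subgroup.coe_mul, inv_mul_cancel]
  rfl

lemma vmul (u v : U n F) : (u * v : U n F).val.val = u.val.val * v.val.val := rfl

lemma dd_conj (u g : U n F) : dd (u * g * u⁻¹) = act u u⁻¹ (dd g) := by
  apply Subtype.ext
  simp only [act_val, dd_val, vmul]
  rw [mul_sub, sub_mul, mul_one, vinv]

lemma dd_left (h g : U n F) : dd (h * g) = act h 1 (dd g) + dd h := by
  apply Subtype.ext
  simp only [act_val, dd_val, vmul, Submodule.coe_add]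
  have : ((1 : U n F).val.val : Matrix (Fin n) (Fin n) F) = 1 := rfl
  rw [this, mul_one, mul_sub, mul_one]
  abel

lemma dd_right (g h : U n F) : dd (g * h) = act 1 h (dd g) + dd h := by
  apply Subtype.ext
  simp only [act_val, dd_val, vmul, Submodule.coe_add]
  have : ((1 : U n F).val.val : Matrix (Fin n) (Fin n) F) = 1 := rfl
  rw [this, one_mul, sub_mul, one_mul]
  abel

lemma dd_inj : Function.Injective (dd : U n F → N n F) := by
  intro g h e
  have h1 := congrArg Subtype.val e
  rw [dd_val, dd_val] at h1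
  apply Subtype.ext
  apply Units.ext
  exact sub_left_injective h1

/-- the element `1 + x` of `U` -/
def uu (x : N n F) : U n F := by
  have hdet : (1 + x.val).det = 1 := by
    rw [Matrix.det_of_isUpperTriangular]
    · refine Finset.prod_eq_one fun i _ => ?_
      rw [Matrix.add_apply, Matrix.one_apply_eq, x.2 i i le_rfl, add_zero]
    · intro i j h
      have h' : j < i := h
      rw [Matrix.add_apply, Matrix.one_apply_ne h'.ne', x.2 i j h'.le, add_zero]
  exact ⟨Matrix.nonsingInvUnit (1 + x.val) (by rw [hdet]; exact isUnit_one), by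
    refine ⟨fun i => ?_, fun i j h => ?_⟩
    · change (1 + x.val) i i = 1
      rw [Matrix.add_apply, Matrix.one_apply_eq, x.2 i i le_rfl, add_zero]
    · change (1 + x.val) i j = 0
      rw [Matrix.add_apply, Matrix.one_apply_ne h.ne', x.2 i j h.le, add_zero]⟩

lemma uu_val (x : N n F) : (uu x).val.val = 1 + x.val := rfl

lemma dd_uu (x : N n F) : dd (uu x) = x := by
  apply Subtype.ext
  rw [dd_val, uu_val]
  abel

lemma dd_surj : Function.Surjective (dd : U n F → N n F) := fun x => ⟨uu x, dd_uu x⟩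

/-- the bijection `g ↦ g - 1` -/
def ddE : U n F ≃ N n F := Equiv.ofBijective dd ⟨dd_inj, dd_surj⟩

lemma orb_self (l : N n F →ₗ[F] F) : l ∈ orb l := by
  refine ⟨1, 1, ?_⟩
  ext1 y
  rw [LinearMap.comp_apply, act_one]

lemma orb_act {l m : N n F →ₗ[F] F} (h : m ∈ orb l) (u v : U n F) : m ∘ₗ act u v ∈ orb l := by
  obtain ⟨a, b, rfl⟩ := h
  exact ⟨a * u, v * b, by rw [LinearMap.comp_assoc, act_comp]⟩

lemma orb_symm {l m : N n F →ₗ[F] F} (h : m ∈ orb l) : l ∈ orb m := by
  obtain ⟨a, b, rfl⟩ := h
  refine ⟨a⁻¹, b⁻¹, ?_⟩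
  rw [LinearMap.comp_assoc, act_comp, mul_inv_cancel, inv_mul_cancel]
  ext1 y
  rw [LinearMap.comp_apply, act_one]

lemma orb_eq {l m : N n F →ₗ[F] F} (h : m ∈ orb l) : orb m = orb l := by
  ext k
  constructor
  · rintro ⟨a, b, rfl⟩
    exact orb_act h a b
  · rintro ⟨a, b, rfl⟩
    exact orb_act (orb_symm h) a b

/-- the setoid of two-sided orbits on the dual space -/
def dset (n : ℕ) (F : Type) [Field F] : Setoid (N n F →ₗ[F] F) where
  r l m := m ∈ orb l
  iseqv := ⟨orb_self, orb_symm, fun {l m k} h1 h2 => by rw [← orb_eq h1]; exact h2⟩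

variable [Finite F]

instance : Finite (Matrix (Fin n) (Fin n) F) := inferInstanceAs (Finite (Fin n → Fin n → F))
instance : Finite (N n F) := inferInstance
instance : Finite (U n F) := Finite.of_injective dd dd_inj
instance : Finite (N n F →ₗ[F] F) := Finite.of_injective (fun l => (l : N n F → F)) DFunLike.coe_injective

variable (th : AddChar F ℂ)

/-- the function `g ↦ θ (m (g - 1))` -/
def ee (m : N n F →ₗ[F] F) (g : U n F) : ℂ := th (m (dd g))

/-- the additive character `θ ∘ m` of `𝔫` -/
def ch (m : N n F →ₗ[F] F) : AddChar (N n F) ℂ := th.compAddMonoidHom m.toAddMonoidHom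

lemma ch_apply (m : N n F →ₗ[F] F) (x : N n F) : ch th m x = th (m x) := rfl

variable {th} (hth : ∃ x, th x ≠ 1)

include hth

omit [Finite F] in
lemma th_sep {a : F} (h : ∀ c : F, th (c * a) = 1) : a = 0 := by
  by_contra ha
  obtain ⟨x, hx⟩ := hth
  apply hx
  have := h (x * a⁻¹)
  rwa [mul_assoc, inv_mul_cancel₀ ha, mul_one] at this

lemma ch_inj : Function.Injective (ch th : (N n F →ₗ[F] F) → AddChar (N n F) ℂ) := by
  intro l m h
  ext1 x
  rw [← sub_eq_zero]
  apply th_sep hth
  intro c
  have h1 := DFunLike.congr_fun h (c • x)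
  rw [ch_apply, ch_apply, LinearMap.map_smul, LinearMap.map_smul, smul_eq_mul, smul_eq_mul] at h1
  have h2 : th (c * (l x - m x)) = th (c * l x) / th (c * m x) := by
    rw [mul_sub, AddChar.map_sub_eq_div]
  rw [h2, h1]
  exact div_self (AddChar.val_isUnit th _).ne_zero

lemma ee_li : LinearIndependent ℂ (ee th : (N n F →ₗ[F] F) → U n F → ℂ) := by
  have h1 := (AddChar.linearIndependent (N n F) ℂ).comp _ (ch_inj (n := n) hth)
  let φ : (N n F → ℂ) →ₗ[ℂ] (U n F → ℂ) := LinearMap.funLeft ℂ ℂ dd
  have hφ : LinearMap.ker φ = ⊥ := LinearMap.ker_eq_bot.mpr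
    (LinearMap.funLeft_injective_of_surjective ℂ ℂ _ dd_surj)
  exact h1.map' φ hφ

end Pool.Agent.U979.SC
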