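import Pool.Agent.U979.SC.Uni

set_option autoImplicit false
set_option linter.unusedSectionVars false

open scoped BigOperators Classical
open Pool.Agent.H254R3.IN (conv Om dl IsCl Om_conv Om_dl)

noncomputable section

namespace Pool.Agent.U979.SC

variable {n : ℕ} {F : Type} [Field F] [Finite F] [Fintype (U n F)]

instance : Fintype (N n F →ₗ[F] F) := Fintype.ofFinite _

variable (th : AddChar F ℂ)

/-- the span of the functions `ee m` with `m` in the orbit of `l` -/
def W (l : N n F →ₗ[F] F) : Submodule ℂ (U n F → ℂ) := Submodule.span ℂ (ee th '' orb l)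

lemma conv_ee_right (f : U n F → ℂ) (m : N n F →ₗ[F] F) :
    conv f (ee th m) = ∑ x : U n F, (f x * ee th m x⁻¹) • ee th (m ∘ₗ act x⁻¹ 1) := by
  funext g
  unfold conv
  rw [Finset.sum_apply]
  refine Finset.sum_congr rfl fun x _ => ?_
  simp only [Pi.smul_apply, smul_eq_mul, ee, LinearMap.comp_apply]
  rw [dd_left, map_add, AddChar.map_add_eq_mul]
  ring

lemma conv_ee_left (h : U n F → ℂ) (m : N n F →ₗ[F] F) :
    conv (ee th m) h = ∑ y : U n F, (h y * ee th m y⁻¹) • ee th (m ∘ₗ act 1 y⁻¹) := by
  funext g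
  unfold conv
  rw [Finset.sum_apply]
  refine Fintype.sum_equiv ((Equiv.inv (U n F)).trans (Equiv.mulRight g)) _ _ fun x => ?_
  simp only [Equiv.trans_apply, Equiv.inv_apply, Equiv.coe_mulRight, Pi.smul_apply, smul_eq_mul, ee,
    LinearMap.comp_apply]
  have e1 : (x⁻¹ * g)⁻¹ = g⁻¹ * x := by group
  have e2 : x = g * (g⁻¹ * x) := by group
  have e3 : th (m (dd x)) = th (m (act 1 (g⁻¹ * x) (dd g))) * th (m (dd (g⁻¹ * x))) := by
    conv_lhs => rw [e2]
    rw [dd_right, map_add, AddChar.map_add_eq_mul]
  rw [e1, e3]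
  ring

lemma conv_mem_right (f : U n F → ℂ) {h : U n F → ℂ} {l : N n F →ₗ[F] F} (hh : h ∈ W th l) :
    conv f h ∈ W th l := by
  refine Submodule.span_induction (p := fun x _ => conv f x ∈ W th l) ?_ ?_ ?_ ?_ hh
  · rintro _ ⟨m, hm, rfl⟩
    rw [conv_ee_right]
    refine Submodule.sum_mem _ fun x _ => Submodule.smul_mem _ _ (Submodule.subset_span ?_)
    exact ⟨_, orb_act hm _ _, rfl⟩
  · have : conv f (0 : U n F → ℂ) = 0 := by
      funext g
      simp [conv]
    rw [this]
    exact Submodule.zero_mem _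
  · intro x y _ _ hx hy
    have : conv f (x + y) = conv f x + conv f y := by
      funext g
      simp [conv, mul_add, Finset.sum_add_distrib]
    rw [this]
    exact Submodule.add_mem _ hx hy
  · intro c x _ hx
    have : conv f (c • x) = c • conv f x := by
      funext g
      simp only [conv, Pi.smul_apply, smul_eq_mul, Finset.mul_sum]
      refine Finset.sum_congr rfl fun y _ => ?_
      ring
    rw [this]
    exact Submodule.smul_mem _ _ hx

lemma conv_mem_left {f : U n F → ℂ} (h : U n F → ℂ) {l : N n F →ₗ[F] F} (hf : f ∈ W th l) :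
    conv f h ∈ W th l := by
  refine Submodule.span_induction (p := fun x _ => conv x h ∈ W th l) ?_ ?_ ?_ ?_ hf
  · rintro _ ⟨m, hm, rfl⟩
    rw [conv_ee_left]
    refine Submodule.sum_mem _ fun x _ => Submodule.smul_mem _ _ (Submodule.subset_span ?_)
    exact ⟨_, orb_act hm _ _, rfl⟩
  · have : conv (0 : U n F → ℂ) h = 0 := by
      funext g
      simp [conv]
    rw [this]
    exact Submodule.zero_mem _
  · intro x y _ _ hx hy
    have : conv (x + y) h = conv x h + conv y h := by
      funext g
      simp [conv, add_mul, Finset.sum_add_distrib]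
    rw [this]
    exact Submodule.add_mem _ hx hy
  · intro c x _ hx
    have : conv (c • x) h = c • conv x h := by
      funext g
      simp only [conv, Pi.smul_apply, smul_eq_mul, Finset.mul_sum]
      refine Finset.sum_congr rfl fun y _ => ?_
      ring
    rw [this]
    exact Submodule.smul_mem _ _ hx

lemma orbSum_eq (l : N n F →ₗ[F] F) : orbSum th l = ∑ m ∈ (orb l).toFinset, ee th m := by
  funext g
  unfold orbSum
  rw [Finset.sum_apply, finsum_mem_eq_toFinset_sum]
  rfl

lemma orbSum_mem (l : N n F →ₗ[F] F) : orbSum th l ∈ W th l := by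
  rw [orbSum_eq]
  refine Submodule.sum_mem _ fun m hm => Submodule.subset_span ⟨m, ?_, rfl⟩
  exact Set.mem_toFinset.mp hm

lemma orbSum_cl (l : N n F →ₗ[F] F) : IsCl (orbSum th l) := by
  intro g y
  unfold orbSum
  refine finsum_mem_eq_of_bijOn (fun m => m ∘ₗ act y y⁻¹) ⟨?_, ?_, ?_⟩ ?_
  · intro m hm
    exact orb_act hm _ _
  · intro m _ m' _ h
    have h1 := congrArg (fun k => k ∘ₗ act y⁻¹ y) h
    simp only [LinearMap.comp_assoc, act_comp] at h1
    rw [mul_inv_cancel] at h1
    ext1 z
    have h2 := LinearMap.congr_fun h1 z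
    rw [LinearMap.comp_apply, LinearMap.comp_apply, act_one] at h2
    exact h2
  · intro m hm
    refine ⟨m ∘ₗ act y⁻¹ y, orb_act hm _ _, ?_⟩
    simp only [LinearMap.comp_assoc, act_comp]
    rw [inv_mul_cancel]
    ext1 z
    rw [LinearMap.comp_apply, act_one]
  · intro m _
    rw [dd_conj]
    rfl

variable {th} (hth : ∃ x, th x ≠ 1)

include hth

lemma W_disj {l m : N n F →ₗ[F] F} (h : m ∉ orb l) : Disjoint (W th l) (W th m) := by
  refine (ee_li (n := n) hth).disjoint_span_image ?_
  rw [Set.disjoint_left]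
  intro k h1 h2
  apply h
  rw [← orb_eq h1]
  exact orb_symm h2

lemma orbSum_orth {l m : N n F →ₗ[F] F} (h : m ∉ orb l) :
    conv (orbSum th l) (orbSum th m) = 0 := by
  have h1 := W_disj hth h
  rw [Submodule.disjoint_def] at h1
  exact h1 _ (conv_mem_left th _ (orbSum_mem th l)) (conv_mem_right th _ (orbSum_mem th m))

lemma card_dual : Nat.card (N n F →ₗ[F] F) = Nat.card (U n F) := by
  rw [Nat.card_congr (ddE (n := n) (F := F))]
  exact (Nat.card_congr (Module.finBasis F (N n F)).toDualEquiv.toEquiv).symm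

lemma sum_ee (g : U n F) : ∑ m : N n F →ₗ[F] F, ee th m g = if g = 1 then (Nat.card (U n F) : ℂ) else 0 := by
  split_ifs with h
  · subst h
    simp only [ee, dd_one, map_zero, AddChar.map_zero_eq_one]
    rw [Finset.sum_const, Finset.card_univ, ← Nat.card_eq_fintype_card, card_dual hth]
    simp
  · have h1 : dd g ≠ 0 := by
      intro h2
      apply h
      apply dd_inj
      rw [h2, dd_one]
    let ev : (N n F →ₗ[F] F) →+ F :=
      { toFun := fun m => m (dd g)
        map_zero' := rfl
        map_add' := fun _ _ => rfl }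
    let ψ : AddChar (N n F →ₗ[F] F) ℂ := th.compAddMonoidHom ev
    have h2 : ψ ≠ 0 := by
      intro h3
      apply h1
      rw [← Module.forall_dual_apply_eq_zero_iff F]
      intro m
      apply th_sep hth
      intro c
      have h4 := DFunLike.congr_fun h3 (c • m)
      exact h4
    exact AddChar.sum_eq_zero_iff_ne_zero.mpr h2

/-- the family of orbit sums -/
def fam (th : AddChar F ℂ) (q : Quotient (dset n F)) : U n F → ℂ := orbSum th q.out

omit hth [Finite F] [Fintype (U n F)] in
lemma mem_orb_out (q : Quotient (dset n F)) (m : N n F →ₗ[F] F) : m ∈ orb q.out ↔ (⟦m⟧ : Quotient (dset n F)) = q := by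
  constructor
  · intro h
    rw [← Quotient.out_eq q]
    exact (Quotient.sound (s := dset n F) h).symm
  · rintro rfl
    exact Quotient.mk_out (s := dset n F) m

instance : Fintype (Quotient (dset n F)) := Fintype.ofFinite _

lemma fam_sum (g : U n F) : ∑ q, fam th q g = if g = 1 then (Nat.card (U n F) : ℂ) else 0 := by
  rw [← sum_ee hth g, ← Finset.sum_fiberwise (g := fun m => (⟦m⟧ : Quotient (dset n F)))]
  refine Finset.sum_congr rfl fun q _ => ?_
  unfold fam
  rw [orbSum_eq, Finset.sum_apply]
  refine Finset.sum_congr ?_ fun _ _ => rfl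
  ext m
  rw [Set.mem_toFinset, mem_orb_out]
  simp

omit hth in
lemma fam_cl (q : Quotient (dset n F)) : IsCl (fam th q) := orbSum_cl th _

lemma fam_orth (q r : Quotient (dset n F)) (h : q ≠ r) : conv (fam th q) (fam th r) = 0 := by
  apply orbSum_orth hth
  intro h1
  rw [mem_orb_out, Quotient.out_eq] at h1
  exact h h1.symm

omit hth [Fintype (U n F)] [Finite F] in
lemma fam_eq (l : N n F →ₗ[F] F) : fam th (⟦l⟧ : Quotient (dset n F)) = orbSum th l := by
  have h1 : orb (⟦l⟧ : Quotient (dset n F)).out = orb l := by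
    ext m
    rw [mem_orb_out, Quotient.eq]
    exact ⟨orb_symm, orb_symm⟩
  unfold fam orbSum
  rw [h1]

end Pool.Agent.U979.SC
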